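import Pool.Agent.Lib.MP_72e2e6_nt.P3.L.Spec

/-!
# MP_72e2e6_nt, theorem T3p, part L: a countable basis of neighbourhoods
-/

namespace Pool.Agent.MP72P

open IntermediateField Finset

private theorem Cbg_prim {F L : Type} [Field F] [Field L] [Algebra F L] [Algebra.IsSeparable F L]
    (E : IntermediateField F L) [FiniteDimensional F E] : ∃ x : L, E = F⟮x⟯ := by
  have : Algebra.IsSeparable F E := Algebra.isSeparable_tower_bot_of_isSeparable F E L
  obtain ⟨a, ha⟩ := Field.exists_primitive_element F E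
  refine ⟨E.val a, ?_⟩
  have h1 : E = IntermediateField.map E.val ⊤ := by
    rw [← AlgHom.fieldRange_eq_map, IntermediateField.fieldRange_val]
  conv_lhs => rw [h1, ← ha]
  rw [IntermediateField.adjoin_map, Set.image_singleton]

theorem tCbg : S_Krs → S_Cbg := by
  intro hKrs p _ K _ _ hc v Q ϖ R hLF ⟨ι⟩
  obtain ⟨e, he⟩ := exists_surjective_nat (Kgs K)
  refine ⟨fun n => (v.Completion⟮ι (e n)⟯).fixingSubgroup, fun n => ?_, ?_⟩
  · have : FiniteDimensional v.Completion v.Completion⟮ι (e n)⟯ :=
      IntermediateField.adjoin.finiteDimensional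
        (Algebra.IsIntegral.isIntegral (R := v.Completion) (ι (e n)))
    exact IntermediateField.fixingSubgroup_isOpen _
  · intro N hN h1
    obtain ⟨E, hE, hEN⟩ := (krullTopology_mem_nhds_one_iff v.Completion (Kvs v) N).1
      (hN.mem_nhds h1)
    obtain ⟨x, hx⟩ := Cbg_prim E
    obtain ⟨y, hy⟩ := hKrs p K v Q ϖ R hLF ι x
    obtain ⟨n, rfl⟩ := he y
    refine ⟨n, subset_trans ?_ hEN⟩
    have hle : E ≤ v.Completion⟮ι (e n)⟯ := by
      rw [hx, IntermediateField.adjoin_simple_le_iff]
      exact hy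
    exact IntermediateField.fixingSubgroup_le hle

end Pool.Agent.MP72P
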