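import Pool.Agent.Lib.MP_72e2e6_nt.P3.L.Spec

/-!
# MP_72e2e6_nt, theorem T3p, part L: module Dbl (local tests)
-/

namespace Pool.Agent.MP72P

open IntermediateField Finset

theorem tDbl : S_Cnk → S_Cbg → S_Dbs → S_Lc2 → S_Has → S_Lcl → S_Dbl := by
  intro hCnk hCbg hDbs _ hHas hLcl p _ K _ _ hK v Q ϖ R hLF α h hα hαp
  have hchp : CharP v.Completion p :=
    charP_of_injective_algebraMap (algebraMap K v.Completion).injective p
  have hCho : ChO p (omc p (K := v.Completion) α) :=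
    (hHas p v.Completion (Kvs v) α h hα hαp).1.1
  obtain ⟨cK, cKs⟩ := hCnk p K hK
  have hne : Nonempty (Kgs K →ₐ[K] Kvs v) := ⟨IsSepClosed.lift⟩
  refine hDbs p Gal(Kvs v/v.Completion) (omc p α) hCho (hCbg p K cKs v Q ϖ R hLF hne) ?_
  have hsub : {c : Gal(Kvs v/v.Completion) → ZMod p |
      Coc (fun g (x : ZMod p) => omc p α g * x) c} ⊆
      Set.range fun (q : K × ZMod p) (g : Gal(Kvs v/v.Completion)) =>
        hP p α (algebraMap K v.Completion q.1) g + (q.2 - omc p α g * q.2) := by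
    intro H hH
    obtain ⟨f, c, hc⟩ := (hLcl p K v Q ϖ R hLF α h hα hαp).2.2.1 H hH
    exact ⟨(f, c), (funext hc).symm⟩
  exact (Set.countable_range _).mono hsub

end Pool.Agent.MP72P
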