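import Pool.Agent.Lib.MP_72e2e6_nt.P3.L.Spec

/-!
# MP_72e2e6_nt, block L: dual bases converging to 1
-/

namespace Pool.Agent.MP72P

open Finset

open scoped Classical

section

variable {p : ℕ} [Fact p.Prime] {Γ : Type} [Group Γ] [TopologicalSpace Γ] {ω : Γ → ZMod p}

private abbrev CC (ω : Γ → ZMod p) (c : Γ → ZMod p) : Prop :=
  Coc (fun g (x : ZMod p) => ω g * x) c

private theorem cc_one (hω : ChO p ω) {c : Γ → ZMod p} (hc : CC ω c) : c 1 = 0 := by
  have h := hc.mul 1 1
  simp only [mul_one, hω.one, one_mul] at h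
  exact left_eq_add.mp h

private def VV (ω : Γ → ZMod p) : AddSubgroup (Γ → ZMod p) where
  carrier := {c | CC ω c}
  zero_mem' := ⟨IsLocallyConstant.const 0, fun g h => by simp⟩
  add_mem' := by
    intro a b ha hb
    refine ⟨ha.loc.add hb.loc, fun g h => ?_⟩
    have h1 := ha.mul g h
    have h2 := hb.mul g h
    simp only [Pi.add_apply] at h1 h2 ⊢
    rw [h1, h2]
    ring
  neg_mem' := by
    intro a ha
    refine ⟨ha.loc.neg, fun g h => ?_⟩
    have h1 := ha.mul g h
    simp only [Pi.neg_apply] at h1 ⊢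
    rw [h1]
    ring

private def MM (hω : ChO p ω) (U : ℕ → Subgroup Γ) (c : ℕ → Γ → ZMod p) (hc : ∀ k, CC ω (c k))
    (n : ℕ) : Subgroup Γ where
  carrier := {g | ∀ k < n, g ∈ U k ∧ c k g = 0}
  one_mem' := fun k _ => ⟨(U k).one_mem, cc_one hω (hc k)⟩
  mul_mem' := by
    intro a b ha hb k hk
    refine ⟨(U k).mul_mem (ha k hk).1 (hb k hk).1, ?_⟩
    have h := (hc k).mul a b
    simp only [(ha k hk).2, (hb k hk).2, mul_zero, add_zero] at h
    exact h
  inv_mem' := by
    intro a ha k hk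
    refine ⟨(U k).inv_mem (ha k hk).1, ?_⟩
    have h := (hc k).mul a⁻¹ a
    simp only [inv_mul_cancel, (ha k hk).2, mul_zero, add_zero, cc_one hω (hc k)] at h
    exact h.symm

private def WW (ω : Γ → ZMod p) (M : Subgroup Γ) : AddSubgroup (Γ → ZMod p) where
  carrier := {c | CC ω c ∧ ∀ g ∈ M, c g = 0}
  zero_mem' := ⟨(VV ω).zero_mem, fun g _ => rfl⟩
  add_mem' := by
    intro a b ha hb
    refine ⟨(VV ω).add_mem ha.1 hb.1, fun g hg => ?_⟩
    simp [ha.2 g hg, hb.2 g hg]
  neg_mem' := by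
    intro a ha
    refine ⟨(VV ω).neg_mem ha.1, fun g hg => ?_⟩
    simp [ha.2 g hg]

private theorem WW_mono {M N : Subgroup Γ} (h : N ≤ M) {f : Γ → ZMod p} (hf : f ∈ WW ω M) :
    f ∈ WW ω N := ⟨hf.1, fun g hg => hf.2 g (h hg)⟩

private theorem WW_fin [IsTopologicalGroup Γ] [CompactSpace Γ] (M : Subgroup Γ) (hM : IsOpen (M : Set Γ)) :
    ((WW ω M : AddSubgroup (Γ → ZMod p)) : Set (Γ → ZMod p)).Finite := by
  have : Finite (Γ ⧸ M) := Subgroup.quotient_finite_of_isOpen M hM
  let F : (Γ → ZMod p) → ((Γ ⧸ M) → ZMod p) := fun f q => f q.out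
  refine Set.Finite.of_finite_image (f := F) (Set.toFinite _) ?_
  intro f hf f' hf' e
  have key : ∀ f : Γ → ZMod p, f ∈ WW ω M → ∀ g : Γ, f g = F f (QuotientGroup.mk g) := by
    intro f hf g
    obtain ⟨m, hm⟩ := QuotientGroup.mk_out_eq_mul M g
    change f g = f (Quotient.out (QuotientGroup.mk g : Γ ⧸ M))
    rw [hm, hf.1.mul g m]
    simp only [hf.2 m m.2, mul_zero, add_zero]
  funext g
  rw [key f hf g, key f' hf' g, e]

end

theorem tDbs (h1 : S_Fdl) : S_Dbs := by
  intro p _ Γ _ _ _ _ ω hω ⟨U, hU, hUb⟩ hcount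
  obtain ⟨c, hc⟩ := hcount.exists_eq_range ⟨0, (VV ω).zero_mem⟩
  have hcC : ∀ k, CC ω (c k) := fun k => by
    have : c k ∈ {c : Γ → ZMod p | Coc (fun g (x : ZMod p) => ω g * x) c} := by
      rw [hc]; exact ⟨k, rfl⟩
    exact this
  let M : ℕ → Subgroup Γ := MM hω U c hcC
  have hMo : ∀ n, IsOpen (M n : Set Γ) := by
    intro n
    have : (M n : Set Γ) = ⋂ k ∈ Finset.range n, ((U k : Set Γ) ∩ (c k) ⁻¹' {0}) := by
      ext g
      simp only [Set.mem_iInter, Finset.mem_range]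
      rfl
    rw [this]
    exact isOpen_biInter_finset fun k _ => (hU k).inter ((hcC k).loc.isOpen_fiber 0)
  have hMm : ∀ m n, m ≤ n → M n ≤ M m := fun m n hmn g hg k hk => hg k (lt_of_lt_of_le hk hmn)
  -- the stage
  have stage : ∀ n, ∃ (d : ℕ) (e : Fin d → Γ), (∀ j, e j ∈ M n) ∧
      (∀ v : Fin d → ZMod p, ∃ f ∈ WW ω (M (n + 1)), ∀ j, f (e j) = v j) ∧
      ∀ f ∈ WW ω (M (n + 1)), (∀ j, f (e j) = 0) → f ∈ WW ω (M n) := by
    intro n
    let res : (Γ → ZMod p) →+ (M n → ZMod p) :=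
      { toFun := fun f g => f g
        map_zero' := rfl
        map_add' := fun a b => rfl }
    let KK : AddSubgroup (M n → ZMod p) := (WW ω (M (n + 1))).map res
    have hK : (KK : Set (M n → ZMod p)).Finite := by
      have : (KK : Set (M n → ZMod p)) = res '' (WW ω (M (n + 1)) : Set (Γ → ZMod p)) :=
        AddSubgroup.coe_map _ _
      rw [this]
      exact (WW_fin (M (n + 1)) (hMo (n + 1))).image _
    obtain ⟨d, e, -, he⟩ := h1 p (M n) KK hK
    refine ⟨d, fun j => (e j : Γ), fun j => (e j).2, fun v => ?_, fun f hf h0 => ?_⟩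
    · obtain ⟨y, hy, -⟩ := he v
      obtain ⟨f, hf, hfy⟩ := AddSubgroup.mem_map.mp y.2
      refine ⟨f, hf, fun j => ?_⟩
      have := hy j
      rw [← hfy] at this
      exact this
    · obtain ⟨y, -, hy⟩ := he 0
      have z1 : (⟨res f, AddSubgroup.mem_map_of_mem res hf⟩ : KK) = y := hy _ fun j => h0 j
      have z2 : (0 : KK) = y := hy _ fun j => rfl
      refine ⟨hf.1, fun g hg => ?_⟩
      have e1 := z1.trans z2.symm
      have e2 := congrArg Subtype.val e1
      exact congrFun e2 ⟨g, hg⟩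
  choose d e he hsur hker using stage
  have hex : ∀ (n : ℕ) (v : (k : ℕ) → Fin (d k) → ZMod p), ∃ f ∈ WW ω (M n), ∀ k < n, ∀ j,
      f (e k j) = v k j := by
    intro n
    induction n with
    | zero => exact fun v => ⟨0, (WW ω (M 0)).zero_mem, fun k hk => absurd hk (Nat.not_lt_zero k)⟩
    | succ n ih =>
      intro v
      obtain ⟨f, hf, hfv⟩ := hsur n (v n)
      obtain ⟨f', hf', hfv'⟩ := ih fun k j => v k j - f (e k j)
      refine ⟨f + f', (WW ω (M (n + 1))).add_mem hf (WW_mono (hMm n (n + 1) (Nat.le_succ n)) hf'),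
        fun k hk j => ?_⟩
      rcases Nat.lt_succ_iff_lt_or_eq.mp hk with h | h
      · rw [Pi.add_apply, hfv' k h j]
        ring
      · subst h
        rw [Pi.add_apply, hfv j, hf'.2 _ (he k j), add_zero]
  refine ⟨Σ n, Fin (d n), fun i => e i.1 i.2, fun N hN h1N => ?_, fun v hv => ?_⟩
  · obtain ⟨m, hm⟩ := hUb N hN h1N
    have hsub : {i : Σ n, Fin (d n) | e i.1 i.2 ∉ N} ⊆
        ((Finset.range (m + 1)).sigma fun n => (Finset.univ : Finset (Fin (d n))) :
          Finset (Σ n, Fin (d n))) := by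
      rintro ⟨n, j⟩ hi
      rw [Finset.mem_coe, Finset.mem_sigma]
      refine ⟨Finset.mem_range.mpr ?_, Finset.mem_univ _⟩
      by_contra hn
      have hn' : ¬ n < m + 1 := hn
      exact hi (hm (he n j m (by omega)).1)
    exact (Finset.finite_toSet _).subset hsub
  · obtain ⟨n₀, hn₀⟩ : ∃ n₀ : ℕ, ∀ i : Σ n, Fin (d n), v i ≠ 0 → i.1 < n₀ := by
      refine ⟨hv.toFinset.sup (fun i => i.1 + 1), fun i hi => ?_⟩
      have : i ∈ hv.toFinset := by simpa using hi
      exact Finset.le_sup (f := fun i : Σ n, Fin (d n) => i.1 + 1) this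
    obtain ⟨f, hf, hfv⟩ := hex n₀ fun k j => v ⟨k, j⟩
    refine ⟨f, ⟨hf.1, ?_⟩, ?_⟩
    · rintro ⟨n, j⟩
      by_cases hn : n < n₀
      · exact hfv n hn j
      · have hv0 : v ⟨n, j⟩ = 0 := by
          by_contra hne
          exact hn (hn₀ _ hne)
        rw [hv0]
        exact hf.2 _ (hMm n₀ n (by omega) (he n j))
    · rintro f' ⟨hf', hfv'⟩
      have hg : f' - f ∈ VV ω := (VV ω).sub_mem hf' hf.1
      have hg0 : ∀ i : Σ n, Fin (d n), (f' - f) (e i.1 i.2) = 0 := by
        rintro ⟨n, j⟩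
        rw [Pi.sub_apply, hfv' ⟨n, j⟩]
        by_cases hn : n < n₀
        · rw [hfv n hn j, sub_self]
        · have hv0 : v ⟨n, j⟩ = 0 := by
            by_contra hne
            exact hn (hn₀ _ hne)
          rw [hv0, hf.2 _ (hMm n₀ n (by omega) (he n j)), sub_zero]
      obtain ⟨k, hk⟩ : ∃ k, c k = f' - f := by
        have : (f' - f) ∈ {c : Γ → ZMod p | Coc (fun g (x : ZMod p) => ω g * x) c} := hg
        rw [hc] at this
        exact this
      have down : ∀ n, f' - f ∈ WW ω (M n) → f' - f ∈ WW ω (M 0) := by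
        intro n
        induction n with
        | zero => exact id
        | succ n ih => exact fun h => ih (hker n _ h fun j => hg0 ⟨n, j⟩)
      have h0 := down (k + 1) ⟨hg, fun g hgM => by
        rw [← hk]
        exact (hgM k (Nat.lt_succ_self k)).2⟩
      have hz : f' - f = 0 := by
        funext g
        exact h0.2 g fun k hk => absurd hk (Nat.not_lt_zero k)
      exact sub_eq_zero.mp hz

end Pool.Agent.MP72P
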