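import Pool.Agent.Lib.MP_72e2e6_nt.P3.L.Spec

/-! # MP_72e2e6_nt, theorem T3p, `P3/L`: `Kvs v` is generated by the algebraic elements of `K` -/

set_option autoImplicit false

namespace Pool.Agent.MP72P

open Polynomial IntermediateField

private theorem krs_fin {C : Type} [NormedField C] (S : Finset C) :
    ∃ δ : ℝ, 0 < δ ∧ ∀ a ∈ S, ∀ b ∈ S, a ≠ b → δ ≤ ‖a - b‖ := by
  classical
  by_cases hS : (S.offDiag.image fun x => ‖x.1 - x.2‖).Nonempty
  · refine ⟨(S.offDiag.image fun x => ‖x.1 - x.2‖).min' hS, ?_, ?_⟩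
    · rw [Finset.lt_min'_iff]
      intro y hy
      rw [Finset.mem_image] at hy
      obtain ⟨x, hx, rfl⟩ := hy
      rw [Finset.mem_offDiag] at hx
      exact norm_pos_iff.2 (sub_ne_zero.2 hx.2.2)
    · intro a ha b hb hab
      refine Finset.min'_le _ _ ?_
      rw [Finset.mem_image]
      exact ⟨(a, b), Finset.mem_offDiag.2 ⟨ha, hb, hab⟩, rfl⟩
  · refine ⟨1, one_pos, fun a ha b hb hab => absurd ?_ hS⟩
    exact ⟨‖a - b‖, Finset.mem_image.2 ⟨(a, b), Finset.mem_offDiag.2 ⟨ha, hb, hab⟩, rfl⟩⟩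

private theorem krs_aux {K k L C Ω : Type} [Field K] [NontriviallyNormedField k] [CompleteSpace k]
    [IsUltrametricDist k] [Algebra K k] (hd : DenseRange (algebraMap K k)) [Field L] [Algebra k L]
    [Algebra K L] [IsScalarTower K k L] [Field C] [Algebra k C] [Algebra L C] [IsScalarTower k L C]
    [IsAlgClosed C] [Algebra.IsAlgebraic k C] [Field Ω] [Algebra K Ω] [IsSepClosed Ω]
    (ι : Ω →ₐ[K] L) (x : L) (hx : IsSeparable k x) : ∃ y : Ω, x ∈ k⟮ι y⟯ := by
  classical
  let : NormedField C := spectralNorm.normedField k C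
  let : NormedAlgebra k C := spectralNorm.normedAlgebra k C
  have : IsUltrametricDist C := IsUltrametricDist.of_normedAlgebra k
  obtain ⟨X, hXx⟩ : ∃ X : C, X = algebraMap L C x := ⟨_, rfl⟩
  have hX : IsSeparable k X := by
    rw [IsSeparable, hXx, minpoly.algebraMap_eq (algebraMap L C).injective]
    exact hx
  obtain ⟨f, hf⟩ : ∃ f, f = minpoly k X := ⟨_, rfl⟩
  have hfm : f.Monic := by rw [hf]; exact minpoly.monic hX.isIntegral
  have hfs : f.Separable := by rw [hf]; exact hX
  have hfC : (f.map (algebraMap k C)).Splits := IsAlgClosed.splits _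
  have hnd : (f.map (algebraMap k C)).roots.Nodup := nodup_roots hfs.map
  obtain ⟨S, hS⟩ : ∃ S : Finset C, S = (f.map (algebraMap k C)).roots.toFinset := ⟨_, rfl⟩
  have hSr : ∀ a, a ∈ S ↔ f.aeval a = 0 := by
    intro a
    rw [hS, Multiset.mem_toFinset, mem_roots (hfm.map _).ne_zero, IsRoot.def,
      eval_map_algebraMap]
  have hSc : S.card = f.natDegree := by
    rw [hS, Multiset.toFinset_card_of_nodup hnd, ← hfC.natDegree_eq_card_roots, natDegree_map]
  have hn0 : f.natDegree ≠ 0 := by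
    rw [hf]
    exact (minpoly.natDegree_pos hX.isIntegral).ne'
  obtain ⟨δ, hδ0, hδ⟩ := krs_fin S
  obtain ⟨M, hM⟩ : ∃ M : ℝ, ∀ a ∈ S, ‖a‖ ≤ M := by
    obtain ⟨M, hM⟩ := (S.image fun a => ‖a‖).bddAbove
    exact ⟨M, fun a ha => hM (Finset.mem_coe.2 (Finset.mem_image_of_mem _ ha))⟩
  have hM1 : 0 < max M 1 := lt_max_of_lt_right one_pos
  have hε : (δ / (max M 1)) ^ f.natDegree / (f.natDegree + 1) > 0 := by positivity
  obtain ⟨g, gmon, gdeg, gcoeff⟩ :=
    exists_monic_and_natDegree_eq_and_norm_map_algebraMap_coeff_sub_lt hd hfm hε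
  have hgC : ((g.map (algebraMap K k)).map (algebraMap k C)).Splits := IsAlgClosed.splits _
  have hroot : ∀ a ∈ S, ∃ b ∈ ((g.map (algebraMap K k)).map (algebraMap k C)).roots,
      ‖a - b‖ < δ := by
    intro a ha
    obtain ⟨b, hb, hab⟩ := exists_aroots_norm_sub_lt_of_norm_coeff_sub_lt
      hε ((hSr a).1 ha) hfm (gmon.map _) (gdeg ▸ (g.natDegree_map _)) gcoeff hgC
    refine ⟨b, hb, hab.trans_le ?_⟩
    have h1 : ((f.natDegree + 1 : ℝ) * ((δ / (max M 1)) ^ f.natDegree / (f.natDegree + 1))) =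
        (δ / (max M 1)) ^ f.natDegree := by
      field_simp
    rw [h1, ← Real.rpow_natCast, ← Real.rpow_mul (by positivity), mul_inv_cancel₀
      (by exact_mod_cast hn0), Real.rpow_one, div_mul_eq_mul_div, div_le_iff₀ hM1]
    exact mul_le_mul_of_nonneg_left (max_le_max (hM a ha) le_rfl) hδ0.le
  choose! β hβ hβδ using hroot
  have hinj : Set.InjOn β S := by
    intro a ha a' ha' he
    by_contra hne
    have h1 := hδ a ha a' ha' hne
    have h2 : ‖a - a'‖ ≤ max ‖a - β a‖ ‖β a - a'‖ := by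
      have h3 := IsUltrametricDist.norm_add_le_max (a - β a) (β a - a')
      rwa [sub_add_sub_cancel] at h3
    have h4 : ‖β a - a'‖ < δ := by
      rw [he, norm_sub_rev]
      exact hβδ a' ha'
    exact absurd (h1.trans h2) (not_le.2 (max_lt (hβδ a ha) h4))
  have hgnd : ((g.map (algebraMap K k)).map (algebraMap k C)).roots.Nodup := by
    rw [← Multiset.toFinset_card_eq_card_iff_nodup]
    refine le_antisymm (Multiset.toFinset_card_le _) ?_
    rw [← hgC.natDegree_eq_card_roots, natDegree_map, natDegree_map, ← gdeg, ← hSc,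
      ← Finset.card_image_of_injOn hinj]
    refine Finset.card_le_card fun b hb => ?_
    rw [Finset.mem_image] at hb
    obtain ⟨a, ha, rfl⟩ := hb
    exact Multiset.mem_toFinset.2 (hβ a ha)
  have hg0 : ((g.map (algebraMap K k)).map (algebraMap k C)) ≠ 0 := ((gmon.map _).map _).ne_zero
  have hgs : g.Separable := by
    have h1 := (nodup_roots_iff_of_splits hg0 hgC).1 hgnd
    rwa [separable_map, separable_map] at h1
  have hgΩ : (g.map (algebraMap K Ω)).Splits := IsSepClosed.splits_codomain g hgs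
  have hXS : X ∈ S := by
    rw [hSr, hf]
    exact minpoly.aeval _ _
  -- the root near `X`
  obtain ⟨y, hy⟩ : ∃ y : Ω, β X = algebraMap L C (ι y) := by
    have h1 := hβ X hXS
    have h2 : (g.map (algebraMap K k)).map (algebraMap k C) =
        (g.map (algebraMap K Ω)).map ((algebraMap L C).comp ι.toRingHom) := by
      rw [Polynomial.map_map, Polynomial.map_map]
      congr 1
      ext z
      change algebraMap k C (algebraMap K k z) = algebraMap L C (ι (algebraMap K Ω z))
      rw [AlgHom.commutes, IsScalarTower.algebraMap_apply K k L, ← IsScalarTower.algebraMap_apply k L C]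
    rw [h2, hgΩ.roots_map, Multiset.mem_map] at h1
    obtain ⟨y, -, hy⟩ := h1
    exact ⟨y, hy.symm⟩
  refine ⟨y, ?_⟩
  have h1 : X ∈ k⟮β X⟯ := by
    refine IsKrasner.krasner hX ?_ (Algebra.IsIntegral.isIntegral _) fun a' h1 h2 => ?_
    · rw [← hf]
      exact hfC
    · refine (hβδ X hXS).trans_le (hδ X hXS a' ?_ h2)
      rw [hSr, hf]
      exact h1.aeval_eq_zero
  rw [hy, hXx] at h1
  have h2 : (k⟮ι y⟯).map (IsScalarTower.toAlgHom k L C) = k⟮algebraMap L C (ι y)⟯ := by
    rw [adjoin_map, Set.image_singleton]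
    rfl
  rw [← h2, IntermediateField.mem_map] at h1
  obtain ⟨z, hz, hzx⟩ := h1
  have h3 : z = x := (algebraMap L C).injective hzx
  rw [← h3]
  exact hz

theorem tKrs : S_Lc1 → S_Lc2 → S_Krs := by
  intro h1 _ p _ K _ _ v Q ϖ R hv ι x
  obtain ⟨hn, hd, hu, -⟩ := h1 p K v Q ϖ R hv
  have hd' : DenseRange (algebraMap K v.Completion) := by
    rw [Metric.denseRange_iff]
    intro z r hr
    obtain ⟨y, hy⟩ := hd z r hr
    exact ⟨y, by rw [dist_eq_norm]; exact hy⟩
  have hne : ∃ z : v.Completion, z ≠ 0 ∧ ‖z‖ ≠ 1 := by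
    refine ⟨algebraMap K v.Completion ϖ, ?_, ?_⟩
    · intro h
      have h2 := hn ϖ
      rw [h, norm_zero] at h2
      exact hv.pi0.ne h2
    · rw [hn ϖ]
      exact hv.pi1.ne
  let _ : NontriviallyNormedField v.Completion := NontriviallyNormedField.ofNormNeOne hne
  have hx : IsSeparable v.Completion x := Algebra.IsSeparable.isSeparable v.Completion x
  exact krs_aux (K := K) (k := v.Completion) (L := Kvs v) (C := AlgebraicClosure v.Completion)
    (Ω := Kgs K) hd' ι x hx

end Pool.Agent.MP72P
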