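import Pool.Agent.Lib.MP_72e2e6_nt.P3.L.Spec

/-!
# MP_72e2e6_nt, theorem T3p, part L: the kernel at level one
-/

namespace Pool.Agent.MP72P

open IntermediateField Finset

private theorem Lk1_bij {p : ℕ} {G J : Type} [Group G] (ω : G → ZMod p)
    (D : J → Subgroup G) (Kr : Set ((G → ZMod p) × (J → ZMod p)))
    (hKr : ∀ z, z ∈ Kr ↔ ∃ b : ZMod p, (∀ g, z.1 g = b - ω g * b) ∧
      ∀ w, (∃ g ∈ D w, ω g ≠ 1) → z.2 w = b)
    (b : J) (hb : (∀ g, ω g = 1) ∨ ∃ g ∈ D b, ω g ≠ 1) (d : ℕ) (y : Fin (d + 1) → J)
    (hy : Function.Injective y)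
    (hr : ∀ w, w ∈ Set.range y ↔ w = b ∨ ∀ g ∈ D w, ω g = 1) :
    Set.BijOn (fun (z : (G → ZMod p) × (J → ZMod p)) (k : Fin (d + 1)) => z.2 (y k)) Kr
      Set.univ := by
  classical
  obtain ⟨kb, hkb⟩ := (hr b).2 (Or.inl rfl)
  refine ⟨fun _ _ => Set.mem_univ _, ?_, ?_⟩
  · intro z hz z' hz' hzz
    obtain ⟨b1, h1, h2⟩ := (hKr z).1 hz
    obtain ⟨b1', h1', h2'⟩ := (hKr z').1 hz'
    have hk : ∀ k, z.2 (y k) = z'.2 (y k) := fun k => congrFun hzz k
    rcases hb with hb | hb
    · have e1 : z.1 = z'.1 := by
        funext g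
        rw [h1, h1', hb, one_mul, one_mul, sub_self, sub_self]
      have e2 : z.2 = z'.2 := by
        funext w
        obtain ⟨k, rfl⟩ := (hr w).2 (Or.inr fun g _ => hb g)
        exact hk k
      exact Prod.ext e1 e2
    · have e0 : b1 = b1' := by
        rw [← h2 b hb, ← h2' b hb, ← hkb]
        exact hk kb
      have e1 : z.1 = z'.1 := by
        funext g
        rw [h1, h1', e0]
      have e2 : z.2 = z'.2 := by
        funext w
        by_cases hw : w ∈ Set.range y
        · obtain ⟨k, rfl⟩ := hw
          exact hk k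
        · have : ∃ g ∈ D w, ω g ≠ 1 := by
            by_contra hcon
            push Not at hcon
            exact hw ((hr w).2 (Or.inr hcon))
          rw [h2 w this, h2' w this, e0]
      exact Prod.ext e1 e2
  · intro s _
    let b1 : ZMod p := if ∀ g, ω g = 1 then 0 else s kb
    let a : J → ZMod p := fun w => if h : ∃ k, y k = w then s h.choose else b1
    have ha : ∀ k, a (y k) = s k := by
      intro k
      have h : ∃ k', y k' = y k := ⟨k, rfl⟩
      simp only [a]
      rw [dif_pos h, hy h.choose_spec]
    refine ⟨(fun g => b1 - ω g * b1, a), ?_, ?_⟩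
    · refine (hKr _).2 ⟨b1, fun g => rfl, fun w hw => ?_⟩
      change a w = b1
      by_cases hall : ∀ g, ω g = 1
      · obtain ⟨g, _, hg⟩ := hw
        exact absurd (hall g) hg
      · by_cases h : ∃ k, y k = w
        · obtain ⟨k, rfl⟩ := h
          rw [ha]
          have hkw : y k = b := by
            rcases (hr (y k)).1 ⟨k, rfl⟩ with h | h
            · exact h
            · obtain ⟨g, hg, hg1⟩ := hw
              exact absurd (h g hg) hg1
          have : k = kb := hy (hkw.trans hkb.symm)
          rw [this]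
          simp only [b1]
          rw [if_neg hall]
        · simp only [a]
          rw [dif_neg h]
    · funext k
      exact ha k

theorem tLk1 : S_Has → S_Hst → S_Rgo → S_Lk1 := by
  intro hHas hHst hRgo p hp K _ _ hGF J av α h hHS hsha ι
  obtain ⟨-, -, hGal, hα0, halo, halop, hCh, -, hH, hroot, -⟩ := hHst p K hGF J av α h hHS
  obtain ⟨-, -, -, -, -, -, hR⟩ := hRgo p K hGF J av α h hHS
  have halo0 : alo p av α ≠ 0 := by
    intro h0
    apply hα0
    rw [← halo, h0]
    rfl
  -- the first part
  have key : ∀ z : (GS p av α → ZMod p) × (J → ZMod p),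
      z ∈ Ker (fun g (x : ZMod p) => omS p av α g * x) (DS p av α ι) ↔
        ∃ b : ZMod p, (∀ g, z.1 g = b - omS p av α g * b) ∧
          ∀ w, (∃ g ∈ DS p av α ι w, omS p av α g ≠ 1) → z.2 w = b := by
    intro z
    constructor
    · rintro ⟨hz1, hz2⟩
      obtain ⟨f, hf, c₀, hc₀⟩ := hH z.1 hz1
      obtain ⟨x₀, hx₀⟩ := hroot f hf
      have hloc : ∀ w, ∃ y : (av w).Completion,
          Ph p (algebraMap K (av w).Completion h) y = algebraMap K (av w).Completion f := by
        intro w
        have hch : CharP (av w).Completion p :=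
          charP_of_injective_algebraMap (algebraMap K (av w).Completion).injective p
        obtain ⟨-, -, -, hom, -, hf6⟩ := hR (av w) (ι w)
        obtain ⟨c₁, hc₁⟩ := hf6 f hf
        have hια0 : ι w α ≠ 0 := fun h0 => hα0 ((ι w).injective (h0.trans (map_zero _).symm))
        have htow : ∀ t : K, algebraMap (av w).Completion (Kvs (av w))
            (algebraMap K (av w).Completion t) = algebraMap K (Kvs (av w)) t := fun t =>
          (IsScalarTower.algebraMap_apply K (av w).Completion (Kvs (av w)) t).symm
        have hιp : (ι w α) ^ (p - 1) = algebraMap (av w).Completion (Kvs (av w))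
            (algebraMap K (av w).Completion h) := by
          rw [← map_pow, hHS.al, (ι w).commutes, htow]
        have h5 := (hHas p (av w).Completion (Kvs (av w)) (ι w α)
          (algebraMap K (av w).Completion h) hια0 hιp).2.2.2.2.1
          (algebraMap K (av w).Completion f) ⟨ι w (x₀ : Kgs K), by
            have h7 := congrArg (fun t : OmS p av α => ι w (t : Kgs K)) hx₀
            simp only [Ph] at h7 ⊢
            push_cast at h7
            rw [halo, map_sub, map_mul, map_pow, map_pow] at h7
            rw [← hιp, htow, ← (ι w).commutes, h7]⟩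
        apply h5.1
        refine ⟨z.2 w - c₀ - c₁, fun g => ?_⟩
        have e1 := hz2 w (rOm p av α (ι w) g) ⟨g, rfl⟩
        simp only [psi] at e1
        rw [hc₀, hc₁, hom] at e1
        linear_combination e1
      have hfS : f ∈ ShN p av h := ⟨hf, hloc⟩
      rw [hsha] at hfS
      obtain ⟨x, hx, hxf⟩ := hfS
      have h5 := (hHas p K (OmS p av α) (alo p av α) h halo0 halop).2.2.2.2.1 f ⟨x₀, by
        rw [← halop]
        exact hx₀⟩
      obtain ⟨c, hc⟩ := h5.2 ⟨x, hxf⟩
      refine ⟨c + c₀, fun g => ?_, ?_⟩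
      · rw [hc₀, hc]
        change _ - omS p av α g * c + _ = _
        ring
      · rintro w ⟨g, hg, hg1⟩
        have e1 := hz2 w g hg
        simp only [psi] at e1
        rw [hc₀, hc] at e1
        change c - omS p av α g * c + (c₀ - omS p av α g * c₀) - _ = 0 at e1
        have e2 : (1 - omS p av α g) * (z.2 w - (c + c₀)) = 0 := by
          linear_combination -e1
        rcases mul_eq_zero.1 e2 with e3 | e3
        · exact absurd (sub_eq_zero.1 e3).symm hg1
        · exact sub_eq_zero.1 e3
    · rintro ⟨b, h1, h2⟩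
      refine ⟨⟨?_, fun g g' => ?_⟩, fun w g hg => ?_⟩
      · have : z.1 = fun g => b - omS p av α g * b := funext h1
        rw [this]
        exact hCh.loc.comp fun t => b - t * b
      · rw [h1, h1, h1, hCh.mul]
        ring
      · simp only [psi]
        rw [h1]
        by_cases hg1 : omS p av α g = 1
        · rw [hg1]
          ring
        · rw [h2 w ⟨g, hg, hg1⟩, sub_self]
  refine ⟨key, fun b hb d y hy hr => ?_⟩
  exact Lk1_bij (omS p av α) (DS p av α ι) _ key b hb d y hy hr

end Pool.Agent.MP72P
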