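import Pool.Agent.Lib.MP_72e2e6_nt.P3.L.Spec

/-!
# MP_72e2e6_nt, theorem T3p, part L: the order of the cokernel at level one
-/

namespace Pool.Agent.MP72P

open IntermediateField Finset Polynomial

/-- The index is the order of a quotient. -/
private theorem lq1_abs {K M : Type} [AddCommGroup K] [AddCommGroup M] (B : AddSubgroup K)
    (Z L : AddSubgroup M) (R : K → M → Prop)
    (hsub : ∀ x f x' f', R x f → R x' f' → R (x - x') (f - f'))
    (h1 : ∀ x, ∃ f ∈ Z, R x f) (h2 : ∀ f ∈ Z, ∃ x, R x f)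
    (h3 : ∀ x, ∀ f ∈ Z, R x f → (f ∈ L ↔ x ∈ B)) : L.relIndex Z = Nat.card (K ⧸ B) := by
  choose F hFZ hFR using h1
  have hcl : ∀ (x y : K) (f : M) (hf : f ∈ Z) (f' : M) (hf' : f' ∈ Z), R x f → R y f' →
      x - y ∈ B → (QuotientAddGroup.mk (⟨f, hf⟩ : Z) : Z ⧸ L.addSubgroupOf Z) =
        QuotientAddGroup.mk ⟨f', hf'⟩ := by
    intro x y f hf f' hf' r r' hB
    rw [QuotientAddGroup.eq]
    rw [AddSubgroup.mem_addSubgroupOf]
    have e : ((-⟨f, hf⟩ + ⟨f', hf'⟩ : Z) : M) = -(f - f') := by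
      push_cast
      abel
    rw [e]
    exact neg_mem ((h3 (x - y) (f - f') (sub_mem hf hf') (hsub _ _ _ _ r r')).2 hB)
  let φ : K →+ Z ⧸ L.addSubgroupOf Z := AddMonoidHom.mk'
    (fun x => QuotientAddGroup.mk (⟨F x, hFZ x⟩ : Z)) (by
      intro x y
      have hR : R x (F (x + y) - F y) := by
        have := hsub _ _ _ _ (hFR (x + y)) (hFR y)
        rwa [add_sub_cancel_right] at this
      have e := hcl x x (F (x + y) - F y) (sub_mem (hFZ _) (hFZ _)) (F x) (hFZ x) hR (hFR x)
        (by rw [sub_self]; exact zero_mem _)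
      have e2 : (QuotientAddGroup.mk (⟨F (x + y), hFZ (x + y)⟩ : Z) : Z ⧸ L.addSubgroupOf Z) -
          QuotientAddGroup.mk (⟨F y, hFZ y⟩ : Z) = QuotientAddGroup.mk (⟨F x, hFZ x⟩ : Z) := by
        rw [← e]
        rfl
      exact sub_eq_iff_eq_add.1 e2)
  have hker : φ.ker = B := by
    ext x
    rw [AddMonoidHom.mem_ker]
    change (QuotientAddGroup.mk (⟨F x, hFZ x⟩ : Z) : Z ⧸ L.addSubgroupOf Z) = 0 ↔ _
    rw [QuotientAddGroup.eq_zero_iff, AddSubgroup.mem_addSubgroupOf]
    exact h3 x (F x) (hFZ x) (hFR x)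
  have hsur : Function.Surjective φ := by
    intro q
    obtain ⟨⟨f, hf⟩, rfl⟩ := QuotientAddGroup.mk_surjective q
    obtain ⟨x, hx⟩ := h2 f hf
    exact ⟨x, hcl x x (F x) (hFZ x) f hf (hFR x) hx (by rw [sub_self]; exact zero_mem _)⟩
  rw [← hker]
  exact (Nat.card_congr (QuotientAddGroup.quotientKerEquivOfSurjective φ hsur).toEquiv).symm

section cnt

variable {p : ℕ} [Fact p.Prime] {L : Type} [Field L] [CharP L p]

private theorem lq1_fix {x : L} (hx : x ^ p = x) : ∃ c : ZMod p, x = ZMod.castHom (dvd_refl p) L c := by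
  classical
  have hp1 : 1 < p := (Fact.out : p.Prime).one_lt
  have hP0 : (X ^ p - X : L[X]) ≠ 0 := FiniteField.X_pow_card_sub_X_ne_zero L hp1
  have hPd : (X ^ p - X : L[X]).natDegree = p := FiniteField.X_pow_card_sub_X_natDegree_eq L hp1
  have hsub : (Finset.univ.image (ZMod.castHom (dvd_refl p) L)) ⊆
      (X ^ p - X : L[X]).roots.toFinset := by
    intro y hy
    obtain ⟨c, -, rfl⟩ := Finset.mem_image.1 hy
    rw [Multiset.mem_toFinset, mem_roots hP0, IsRoot.def, eval_sub, eval_pow, eval_X,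
      ← map_pow, ZMod.pow_card, sub_self]
  have hcard : (X ^ p - X : L[X]).roots.toFinset.card ≤
      (Finset.univ.image (ZMod.castHom (dvd_refl p) L)).card := by
    rw [Finset.card_image_of_injective _ (ZMod.castHom (dvd_refl p) L).injective,
      Finset.card_univ, ZMod.card]
    exact (Multiset.toFinset_card_le _).trans ((card_roots' _).trans hPd.le)
  have heq := Finset.eq_of_subset_of_card_le hsub hcard
  have hxr : x ∈ (X ^ p - X : L[X]).roots.toFinset := by
    rw [Multiset.mem_toFinset, mem_roots hP0, IsRoot.def, eval_sub, eval_pow, eval_X, hx, sub_self]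
  rw [← heq] at hxr
  obtain ⟨c, -, hc⟩ := Finset.mem_image.1 hxr
  exact ⟨c, hc.symm⟩

private theorem lq1_pp : p - 1 + 1 = p := Nat.sub_add_cancel (Fact.out : p.Prime).one_le

private theorem lq1_ker {α h x : L} (hα : α ≠ 0) (hh : α ^ (p - 1) = h) (hx : Ph p h x = 0) :
    ∃ c : ZMod p, x = ZMod.castHom (dvd_refl p) L c * α := by
  have h1 : α ^ p = h * α := by rw [← hh, ← pow_succ, lq1_pp]
  have h2 : (x / α) ^ p = x / α := by
    rw [div_pow, h1, div_eq_div_iff (mul_ne_zero (by rw [← hh]; exact pow_ne_zero _ hα) hα) hα]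
    unfold Ph at hx
    linear_combination α * hx
  obtain ⟨c, hc⟩ := lq1_fix h2
  exact ⟨c, by rw [← hc, div_mul_cancel₀ x hα]⟩

private theorem lq1_e {α h : L} (hh : α ^ (p - 1) = h) (c : ZMod p) :
    Ph p h (ZMod.castHom (dvd_refl p) L c * α) = 0 := by
  have h1 : α ^ p = h * α := by rw [← hh, ← pow_succ, lq1_pp]
  unfold Ph
  rw [mul_pow, ← map_pow, ZMod.pow_card, h1]
  ring

end cnt

/-- The number of the roots of `x ^ p = h x` in `k`. -/
private theorem lq1_cnt (hH : S_Has) (p : ℕ) [Fact p.Prime] (k L : Type) [Field k] [Field L]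
    [Algebra k L] [CharP k p] [IsGalois k L] (α : L) (h : k) (hα : α ≠ 0)
    (hh : α ^ (p - 1) = algebraMap k L h) :
    ((∀ g : Gal(L/k), omc p α g = 1) → Nat.card {x : k // Ph p h x = 0} = p) ∧
      ((∃ g : Gal(L/k), omc p α g ≠ 1) → Nat.card {x : k // Ph p h x = 0} = 1) := by
  have : CharP L p := charP_of_injective_algebraMap (algebraMap k L).injective p
  obtain ⟨⟨-, hom⟩, -⟩ := hH p k L α h hα hh
  constructor
  · intro h1
    have hfix : ∀ g : Gal(L/k), g α = α := by
      intro g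
      have hp1 : 1 < p := (Fact.out : p.Prime).one_lt
      rw [hom g, h1 g, op, ZMod.val_one'' (by omega), Nat.cast_one, one_mul]
    obtain ⟨β, hβ⟩ : ∃ β : k, algebraMap k L β = α := by
      exact (InfiniteGalois.mem_range_algebraMap_iff_fixed (k := k) (K := L) α).2 hfix
    have hβ0 : β ≠ 0 := by
      rintro rfl
      rw [map_zero] at hβ
      exact hα hβ.symm
    have hβh : β ^ (p - 1) = h := by
      apply (algebraMap k L).injective
      rw [map_pow, hβ, hh]
    have hb : Function.Bijective (fun c : ZMod p =>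
        (⟨ZMod.castHom (dvd_refl p) k c * β, lq1_e hβh c⟩ : {x : k // Ph p h x = 0})) := by
      constructor
      · intro a b hab
        have := congrArg Subtype.val hab
        exact (ZMod.castHom (dvd_refl p) k).injective (mul_right_cancel₀ hβ0 this)
      · rintro ⟨x, hx⟩
        obtain ⟨c, hc⟩ := lq1_ker hβ0 hβh hx
        exact ⟨c, Subtype.ext hc.symm⟩
    rw [← Nat.card_congr (Equiv.ofBijective _ hb), Nat.card_zmod]
  · rintro ⟨g, hg⟩
    have hu : ∀ x : k, Ph p h x = 0 → x = 0 := by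
      intro x hx
      by_contra hx0
      have hx' : Ph p (algebraMap k L h) (algebraMap k L x) = 0 := by
        unfold Ph at hx ⊢
        rw [← map_pow, ← map_mul, ← map_sub, hx, map_zero]
      obtain ⟨c, hc⟩ := lq1_ker hα hh hx'
      have hc0 : c ≠ 0 := by
        rintro rfl
        rw [map_zero, zero_mul] at hc
        exact hx0 ((map_eq_zero _).1 hc)
      have hgα : g α = α := by
        have e1 : g (algebraMap k L x) = algebraMap k L x := g.commutes x
        have e2 : g (ZMod.castHom (dvd_refl p) L c) = ZMod.castHom (dvd_refl p) L c := by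
          rw [ZMod.castHom_apply, ← ZMod.natCast_val]
          exact map_natCast g _
        rw [hc, map_mul, e2] at e1
        refine mul_left_cancel₀ ?_ e1
        rw [Ne, map_eq_zero]
        exact hc0
      apply hg
      have e3 := hom g
      rw [hgα] at e3
      have e4 : op L (omc p α g) = 1 := mul_right_cancel₀ hα (by rw [← e3, one_mul])
      have e5 : ZMod.castHom (dvd_refl p) L (omc p α g) = ZMod.castHom (dvd_refl p) L 1 := by
        rw [map_one, ZMod.castHom_apply, ← ZMod.natCast_val]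
        exact e4
      exact (ZMod.castHom (dvd_refl p) L).injective e5
    have h0 : Ph p h 0 = 0 := by
      rw [Ph, zero_pow (Fact.out : p.Prime).ne_zero, mul_zero, sub_zero]
    rw [Nat.card_eq_one_iff_unique]
    exact ⟨⟨fun a b => Subtype.ext ((hu _ a.2).trans (hu _ b.2).symm)⟩, ⟨⟨0, h0⟩⟩⟩

/-- The local facts at one place. -/
private theorem lq1_loc (hL : S_Lc1) (hH : S_Has) (hC : S_Lcl) (p : ℕ) [Fact p.Prime] (K : Type)
    [Field K] [CharP K p] (v : AbsoluteValue K ℝ) (Q : ℕ) (ϖ : K) (R : Finset K)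
    (hLF : LF v p Q ϖ R) (α : Kgs K) (h : K) (hα : α ≠ 0) (hh : α ^ (p - 1) = algebraMap K _ h)
    (ι : Kgs K →ₐ[K] Kvs v) :
    ι α ≠ 0 ∧ ι α ^ (p - 1) = algebraMap v.Completion (Kvs v) (algebraMap K v.Completion h) ∧
    (∀ f : v.Completion, Coc (fun (g : Gal(Kvs v/v.Completion)) (x : ZMod p) =>
      omc p (ι α) g * x) (hP p (ι α) f)) ∧
    (∀ f f' : v.Completion, ∃ c : ZMod p, ∀ g : Gal(Kvs v/v.Completion),
      hP p (ι α) (f + f') g = hP p (ι α) f g + hP p (ι α) f' g + (c - omc p (ι α) g * c)) ∧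
    (∀ f : v.Completion, (∃ c : ZMod p, ∀ g : Gal(Kvs v/v.Completion),
      hP p (ι α) f g = c - omc p (ι α) g * c) ↔
        ∃ y : v.Completion, Ph p (algebraMap K v.Completion h) y = f) ∧
    (∃ ρ : ℝ, 0 < ρ ∧ ∀ f : v.Completion, ‖f‖ ≤ ρ →
      ∃ y : v.Completion, Ph p (algebraMap K v.Completion h) y = f) ∧
    (∀ H : Gal(Kvs v/v.Completion) → ZMod p,
      Coc (fun g (x : ZMod p) => omc p (ι α) g * x) H →
      ∃ (f : K) (c : ZMod p), ∀ g, H g = hP p (ι α) (algebraMap K v.Completion f) g +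
        (c - omc p (ι α) g * c)) ∧
    (∀ x : K, ‖algebraMap K v.Completion x‖ = v x) ∧ CharP v.Completion p := by
  obtain ⟨hnm, -, -, -, -, -, hchar, -, -, -, hPh⟩ := hL p K v Q ϖ R hLF
  have : CharP v.Completion p := hchar
  have e1 : ι α ≠ 0 := (map_ne_zero ι).2 hα
  have e2 : ι α ^ (p - 1) =
      algebraMap v.Completion (Kvs v) (algebraMap K v.Completion h) := by
    rw [← map_pow, hh, AlgHom.commutes, ← IsScalarTower.algebraMap_apply]
  obtain ⟨hex, -, hsep, -⟩ := hC p K v Q ϖ R hLF (ι α) _ e1 e2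
  obtain ⟨-, -, hcoc, hadd, hcob, -⟩ := hH p v.Completion (Kvs v) (ι α) _ e1 e2
  rw [e2] at hex
  have h0 : algebraMap K v.Completion h ≠ 0 := by
    intro e
    rw [e, map_zero] at e2
    exact pow_ne_zero _ e1 e2
  obtain ⟨ρ, hρ, hρ'⟩ := hPh _ h0
  exact ⟨e1, e2, fun f => (hcoc f (hex f)).1, fun f f' => hadd f f' (hex f) (hex f'),
    fun f => hcob f (hex f), ⟨ρ, hρ, fun f hf => (hρ' f hf).imp fun y hy => hy.1⟩, hsep, hnm,
    hchar⟩

private theorem lq1_eps {J : Type} [Fintype J] [Nonempty J] (s : J → ℝ) (hs : ∀ j, 0 < s j) :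
    ∃ ε : ℝ, 0 < ε ∧ ∀ j, ε ≤ s j :=
  ⟨Finset.univ.inf' Finset.univ_nonempty s, (Finset.lt_inf'_iff _).2 fun j _ => hs j,
    fun j => Finset.inf'_le _ (Finset.mem_univ j)⟩

theorem tLq1 (h1 : S_Dsc) (_h2 : S_Str) (h3 : S_Den) (h4 : S_Eul) (h5 : S_Lc1) (h6 : S_Has)
    (h7 : S_Hst) (h8 : S_Rgo) (h9 : S_Lcl) : S_Lq1 := by
  classical
  intro p _ K _ _ hK J _ av α h hHS hsha ι b hb
  have hne : Nonempty J := hHS.nem
  obtain ⟨-, -, hgal, hα, halo, haloh, -, -, hst, hroot, -⟩ := h7 p K hK J av α h hHS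
  obtain ⟨-, -, -, -, -, -, hrgo⟩ := h8 p K hK J av α h hHS
  choose Q ϖ R hLF using fun j => h1 p K hK (av j) (hHS.pls.ntr j)
  have hloc := fun j =>
    lq1_loc h5 h6 h9 p K (av j) (Q j) (ϖ j) (R j) (hLF j) α h hα hHS.al (ι j)
  choose e1 e2 hcoc hadd hcob hball hsep hnm hchar using hloc
  choose ρl hρl hρl' using hball
  obtain ⟨-, ρ, hρ, heul⟩ := h4 p K hK J av hHS.pls h hHS.h0 hHS.hu
  obtain ⟨r, hrdef⟩ : ∃ r : J → ℝ, ∀ j, r j = min (ρl j) ρ := ⟨_, fun _ => rfl⟩
  have hr : ∀ j, 0 < r j ∧ r j ≤ ρ := fun j => by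
    rw [hrdef j]
    exact ⟨lt_min (hρl j) hρ, min_le_right _ _⟩
  have hrl : ∀ j, r j ≤ ρl j := fun j => by
    rw [hrdef j]
    exact min_le_left _ _
  obtain ⟨-, hcard⟩ := heul r hr
  have hom : ∀ j g, omS p av α (rOm p av α (ι j) g) = omc p (ι j α) g := fun j g =>
    (hrgo (av j) (ι j)).2.2.2.1 g
  have hZ : ∀ f : ∀ j, Gal(Kvs (av j)/(av j).Completion) → ZMod p,
      f ∈ ZG p (fun j g => omS p av α (rOm p av α (ι j) g)) ↔
        ∀ j, Coc (fun g (x : ZMod p) => omc p (ι j α) g * x) (f j) := by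
    intro f
    have e : (fun (j : J) (g : Gal(Kvs (av j)/(av j).Completion)) =>
        omS p av α (rOm p av α (ι j) g)) = fun j g => omc p (ι j α) g :=
      funext fun j => funext fun g => hom j g
    rw [e]
    rfl
  -- the relation
  obtain ⟨Rl, hRl⟩ : ∃ Rl : K → (∀ j, Gal(Kvs (av j)/(av j).Completion) → ZMod p) → Prop,
      ∀ x f, Rl x f ↔ ∀ j, ∃ c : ZMod p, ∀ g, f j g =
        hP p (ι j α) (algebraMap K (av j).Completion x) g + (c - omc p (ι j α) g * c) :=
    ⟨_, fun _ _ => Iff.rfl⟩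
  have hsub : ∀ x f x' f', Rl x f → Rl x' f' → Rl (x - x') (f - f') := by
    intro x f x' f' hx hx'
    rw [hRl] at hx hx' ⊢
    intro j
    obtain ⟨c1, hc1⟩ := hx j
    obtain ⟨c2, hc2⟩ := hx' j
    obtain ⟨c3, hc3⟩ := hadd j (algebraMap K _ (x - x')) (algebraMap K _ x')
    rw [← map_add, sub_add_cancel] at hc3
    refine ⟨c3 + c1 - c2, fun g => ?_⟩
    rw [Pi.sub_apply, Pi.sub_apply, hc1, hc2, hc3]
    ring
  -- approximation
  have happ : ∀ (x : ∀ j, (av j).Completion) (s : J → ℝ), (∀ j, 0 < s j) →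
      ∃ y : K, ∀ j, ‖algebraMap K (av j).Completion y - x j‖ ≤ s j := by
    intro x s hs
    obtain ⟨ε, hε, hεs⟩ := lq1_eps s hs
    obtain ⟨y, hy⟩ := h3 K J av hHS.pls x ε hε
    exact ⟨y, fun j => (hy j).le.trans (hεs j)⟩
  have hsmall : ∀ j, ∀ f : (av j).Completion, ‖f‖ ≤ r j → ∃ c : ZMod p,
      ∀ g : Gal(Kvs (av j)/(av j).Completion), hP p (ι j α) f g = c - omc p (ι j α) g * c :=
    fun j f hf => (hcob j f).2 (hρl' j f (hf.trans (hrl j)))
  have hx1 : ∀ x, ∃ f ∈ ZG p (fun j g => omS p av α (rOm p av α (ι j) g)), Rl x f := by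
    intro x
    refine ⟨fun j => hP p (ι j α) (algebraMap K _ x), (hZ _).2 fun j => hcoc j _, ?_⟩
    rw [hRl]
    exact fun j => ⟨0, fun g => by rw [mul_zero, sub_zero, add_zero]⟩
  have hx2 : ∀ f ∈ ZG p (fun j g => omS p av α (rOm p av α (ι j) g)), ∃ x, Rl x f := by
    intro f hf
    rw [hZ] at hf
    choose x c hxc using fun j => hsep j (f j) (hf j)
    obtain ⟨y, hy⟩ := happ (fun j => algebraMap K _ (x j)) r fun j => (hr j).1
    refine ⟨y, (hRl _ _).2 fun j => ?_⟩
    obtain ⟨c1, hc1⟩ := hsmall j _ (hy j)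
    obtain ⟨c2, hc2⟩ := hadd j (algebraMap K _ y - algebraMap K _ (x j)) (algebraMap K _ (x j))
    rw [sub_add_cancel] at hc2
    refine ⟨c j - c1 - c2, fun g => ?_⟩
    rw [hxc j g, hc2 g, hc1 g]
    ring
  have hx3 : ∀ x, ∀ f ∈ ZG p (fun j g => omS p av α (rOm p av α (ι j) g)), Rl x f →
      (f ∈ LG p (omS p av α) (fun j => rOm p av α (ι j)) ↔
        x ∈ (OS av).toAddSubgroup ⊔ (PhA p h).range ⊔ Bl av r) := by
    intro x f _ hxf
    rw [hRl] at hxf
    constructor
    · rintro ⟨z, hz, hzf⟩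
      obtain ⟨a₀, ha₀, c₀, hc₀⟩ := hst z.1 hz
      -- the local elements
      have hy : ∀ j, ∃ y : (av j).Completion, Ph p (algebraMap K (av j).Completion h) y =
          algebraMap K _ (x - a₀) := by
        intro j
        rw [← hcob j]
        obtain ⟨c1, hc1⟩ := hxf j
        obtain ⟨c2, hc2⟩ := (hrgo (av j) (ι j)).2.2.2.2.2 a₀ ha₀
        obtain ⟨c3, hc3⟩ := hadd j (algebraMap K _ (x - a₀)) (algebraMap K _ a₀)
        rw [← map_add, sub_add_cancel] at hc3
        refine ⟨c₀ + c2 - c1 - c3 - z.2 j, fun g => ?_⟩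
        have e := hzf j g
        rw [psi, hc₀, hc2, hom, hc1, hc3] at e
        linear_combination e
      choose y hy using hy
      obtain ⟨w, hw⟩ := happ y (fun j => min 1 (r j / (1 + ‖algebraMap K (av j).Completion h‖)))
        fun j => lt_min one_pos (div_pos (hr j).1 (by positivity))
      have hz : x - a₀ - Ph p h w ∈ Bl av r := by
        intro j _
        have := hchar j
        rw [abs_of_pos (hr j).1, ← hnm j, map_sub, ← hy j]
        have e3 : algebraMap K (av j).Completion (Ph p h w) =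
            Ph p (algebraMap K (av j).Completion h) (algebraMap K (av j).Completion w) := by
          rw [Ph, Ph, map_sub, map_mul, map_pow]
        rw [e3, ← norm_neg, neg_sub]
        have e4 : Ph p (algebraMap K (av j).Completion h) (algebraMap K (av j).Completion w) -
            Ph p (algebraMap K (av j).Completion h) (y j) =
            Ph p (algebraMap K (av j).Completion h) (algebraMap K (av j).Completion w - y j) := by
          exact ((PhA p (algebraMap K (av j).Completion h)).map_sub _ _).symm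
        rw [e4]
        have hw1 := (hw j).trans (min_le_left _ _)
        have hw2 := (hw j).trans (min_le_right _ _)
        generalize algebraMap K (av j).Completion w - y j = u at hw1 hw2
        rw [le_div_iff₀ (by positivity)] at hw2
        calc ‖Ph p (algebraMap K (av j).Completion h) u‖
            ≤ ‖u ^ p‖ + ‖algebraMap K (av j).Completion h * u‖ := by
              rw [Ph]; exact norm_sub_le _ _
          _ = ‖u‖ ^ p + ‖algebraMap K (av j).Completion h‖ * ‖u‖ := by
              rw [norm_pow, norm_mul]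
          _ ≤ ‖u‖ + ‖algebraMap K (av j).Completion h‖ * ‖u‖ := by
              have := pow_le_of_le_one (norm_nonneg u) hw1 (Fact.out : p.Prime).ne_zero
              linarith
          _ = ‖u‖ * (1 + ‖algebraMap K (av j).Completion h‖) := by ring
          _ ≤ r j := hw2
      have e5 : x = a₀ + Ph p h w + (x - a₀ - Ph p h w) := by ring
      rw [e5]
      exact add_mem (AddSubgroup.mem_sup_left (add_mem (AddSubgroup.mem_sup_left ha₀)
        (AddSubgroup.mem_sup_right ⟨w, rfl⟩))) (AddSubgroup.mem_sup_right hz)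
    · intro hx
      obtain ⟨u, hu, z, hz, rfl⟩ := AddSubgroup.mem_sup.1 hx
      obtain ⟨a₀, ha₀, u', ⟨w, rfl⟩, rfl⟩ := AddSubgroup.mem_sup.1 hu
      -- the global crossed homomorphism
      have hcg := (h6 p K (OmS p av α) (alo p av α) h (by
        intro e
        rw [e] at halo
        exact hα halo.symm) haloh).2.2.1 a₀ (by
          rw [← haloh]
          exact hroot a₀ ha₀)
      have hjc : ∀ j, ∃ c : ZMod p, ∀ g, f j g =
          hP p (alo p av α) a₀ (rOm p av α (ι j) g) + (c - omc p (ι j α) g * c) := by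
        intro j
        have := hchar j
        obtain ⟨c1, hc1⟩ := hxf j
        obtain ⟨c2, hc2⟩ := (hrgo (av j) (ι j)).2.2.2.2.2 a₀ ha₀
        obtain ⟨c3, hc3⟩ := hadd j (algebraMap K _ (a₀ + PhA p h w)) (algebraMap K _ z)
        obtain ⟨c4, hc4⟩ := hadd j (algebraMap K _ a₀) (algebraMap K _ (PhA p h w))
        rw [← map_add] at hc3 hc4
        obtain ⟨c5, hc5⟩ := (hcob j (algebraMap K _ (PhA p h w))).2
          ⟨algebraMap K _ w, by
            change _ = algebraMap K (av j).Completion (Ph p h w)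
            rw [Ph, Ph, map_sub, map_mul, map_pow]⟩
        obtain ⟨c6, hc6⟩ := hsmall j (algebraMap K _ z) (by
          rw [hnm j]
          have := hz j (hLF j).na
          rwa [abs_of_pos (hr j).1] at this)
        refine ⟨c1 + c3 + c4 + c5 + c6 - c2, fun g => ?_⟩
        rw [hc1, hc3, hc4, hc5, hc6, hc2]
        ring
      choose c hc using hjc
      refine ⟨(hP p (alo p av α) a₀, fun j => - c j), hcg.1, fun j g => ?_⟩
      rw [psi, hc j g, hom]
      ring
  have hidx := lq1_abs _ _ _ Rl hsub hx1 hx2 hx3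
  rw [hidx]
  -- the numbers of roots
  have hq : Nat.card (ShN p av h ⧸ (PhN p av h).addSubgroupOf (ShN p av h)) = 1 := by
    rw [hsha]
    have : (PhN p av h).addSubgroupOf (PhN p av h) = ⊤ := by simp
    rw [this]
    exact AddSubgroup.index_top
  rw [hq, one_mul] at hcard
  have haloh0 : alo p av α ≠ 0 := by
    intro e
    rw [e] at halo
    exact hα halo.symm
  obtain ⟨hg1, hg2⟩ := lq1_cnt h6 p K (OmS p av α) (alo p av α) h haloh0 haloh
  have hlc : ∀ j, Nat.card {x : (av j).Completion //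
      Ph p (algebraMap K (av j).Completion h) x = 0} =
      if ∀ g ∈ DS p av α ι j, omS p av α g = 1 then p else 1 := by
    intro j
    have := hchar j
    obtain ⟨hg1, hg2⟩ := lq1_cnt h6 p (av j).Completion (Kvs (av j)) (ι j α)
      (algebraMap K (av j).Completion h) (e1 j) (e2 j)
    split_ifs with hD
    · refine hg1 fun g => ?_
      rw [← hom]
      exact hD _ ⟨g, rfl⟩
    · push Not at hD
      obtain ⟨g, ⟨γ, rfl⟩, hg⟩ := hD
      refine hg2 ⟨γ, ?_⟩
      rw [← hom]
      exact hg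
  have hprod : ∏ j, Nat.card {x : (av j).Completion //
      Ph p (algebraMap K (av j).Completion h) x = 0} =
      p ^ {w | ∀ g ∈ DS p av α ι w, omS p av α g = 1}.ncard := by
    rw [Finset.prod_congr rfl fun j _ => hlc j, Finset.prod_ite, Finset.prod_const_one, mul_one,
      Finset.prod_const]
    congr 1
    rw [Set.ncard_eq_toFinset_card']
    congr 1
    ext j
    simp
  rw [hprod] at hcard
  by_cases hω : ∀ g, omS p av α g = 1
  · rw [hg1 hω] at hcard
    rw [hcard]
    congr 2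
    ext w
    exact ⟨fun h => Or.inr h, fun _ g _ => hω g⟩
  · have hω' := hω
    push Not at hω'
    rw [hg2 hω', mul_one] at hcard
    rw [hcard, ← pow_succ]
    congr 1
    obtain ⟨g, hg, hg'⟩ := hb.resolve_left hω
    have e6 : {w | w = b ∨ ∀ g ∈ DS p av α ι w, omS p av α g = 1} =
        insert b {w | ∀ g ∈ DS p av α ι w, omS p av α g = 1} := rfl
    have e7 : b ∉ {w | ∀ g ∈ DS p av α ι w, omS p av α g = 1} := fun hb' => hg' (hb' g hg)
    rw [e6, Set.ncard_insert_of_notMem e7 (Set.toFinite _)]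

end Pool.Agent.MP72P
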