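import Pool.Agent.Lib.MP_72e2e6_nt.P3.L.Spec

/-!
# MP_72e2e6_nt, theorem T3p, part L: the test system
-/

set_option autoImplicit false

namespace Pool.Agent.MP72P

open IntermediateField Finset

theorem tLts (hDsc : S_Dsc) (hSep : S_Sep) (hHst : S_Hst) (hRgo : S_Rgo) (hDbl : S_Dbl)
    (hLk1 : S_Lk1) (hLq1 : S_Lq1) (hLw0 : S_Lw0) (hTsk : S_Tsk) : S_Lts := by
  classical
  intro p _ K _ _ hK J _ av α h hs hsha ι w₀ b hb
  obtain ⟨-, -, -, hα0, -, -, hChO, -⟩ := hHst p K hK J av α h hs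
  have hR := hRgo p K hK J av α h hs
  have hloc := fun w => hR.2.2.2.2.2.2 (av w) (ι w)
  have hom : ∀ w, (fun g => omS p av α (rOm p av α (ι w) g)) = omc p (ι w α) := fun w =>
    funext fun g => (hloc w).2.2.2.1 g
  have hι0 : ∀ w, ι w α ≠ 0 := fun w h0 => hα0 ((map_eq_zero (ι w)).1 h0)
  have hιp : ∀ w, (ι w α) ^ (p - 1) =
      algebraMap (av w).Completion (Kvs (av w)) (algebraMap K (av w).Completion h) := by
    intro w
    rw [← map_pow, hs.al, AlgHom.commutes]
    exact IsScalarTower.algebraMap_apply K (av w).Completion (Kvs (av w)) h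
  have hH2 : ∀ w, H2Z p fun g => omS p av α (rOm p av α (ι w) g) := by
    intro w
    rw [hom w]
    have : CharP (av w).Completion p :=
      charP_of_injective_algebraMap (algebraMap K (av w).Completion).injective p
    exact (hSep p (av w).Completion (ι w α) (algebraMap K (av w).Completion h) (hι0 w)
      (hιp w)).1
  have htest : ∀ w, ∃ (T : Type) (t : T → Gal(Kvs (av w)/(av w).Completion)),
      (∀ N : Set Gal(Kvs (av w)/(av w).Completion), IsOpen N → 1 ∈ N → {i | t i ∉ N}.Finite) ∧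
      ∀ v' : T → ZMod p, {i | v' i ≠ 0}.Finite →
        ∃! f : Gal(Kvs (av w)/(av w).Completion) → ZMod p,
          Coc (fun g (x : ZMod p) => omS p av α (rOm p av α (ι w) g) * x) f ∧
            ∀ i, f (t i) = v' i := by
    intro w
    obtain ⟨Q, ϖ, R, hLF⟩ := hDsc p K hK (av w) (hs.pls.ntr w)
    obtain ⟨T, t, h1, h2⟩ := hDbl p K hK (av w) Q ϖ R hLF (ι w α)
      (algebraMap K (av w).Completion h) (hι0 w) (hιp w)
    refine ⟨T, t, h1, ?_⟩
    have h3 : (fun (g : Gal(Kvs (av w)/(av w).Completion)) (x : ZMod p) =>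
        omS p av α (rOm p av α (ι w) g) * x) = fun g x => omc p (ι w α) g * x := by
      funext g x
      rw [(hloc w).2.2.2.1 g]
    rw [h3]
    exact h2
  choose T t hT1 hT2 using htest
  set C : Set J := {w | w = b ∨ ∀ g ∈ DS p av α ι w, omS p av α g = 1} with hC
  have hCne : C.ncard ≠ 0 := by
    have h1 : b ∈ C := Or.inl rfl
    exact Set.ncard_ne_zero_of_mem h1
  obtain ⟨d, hd⟩ := Nat.exists_eq_succ_of_ne_zero hCne
  have hcard : Fintype.card C = d + 1 := by
    rw [← Nat.card_eq_fintype_card, Nat.card_coe_set_eq]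
    exact hd
  set φ : C ≃ Fin (d + 1) := Fintype.equivFinOfCardEq hcard
  set y : Fin (d + 1) → J := fun k => (φ.symm k : J) with hy
  have hyi : Function.Injective y := fun k k' hk =>
    φ.symm.injective (Subtype.ext hk)
  have hyr : ∀ w, w ∈ Set.range y ↔ w = b ∨ ∀ g ∈ DS p av α ι w, omS p av α g = 1 := by
    intro w
    constructor
    · rintro ⟨k, rfl⟩
      exact (φ.symm k).2
    · intro hw
      exact ⟨φ ⟨w, hw⟩, by simp [hy]⟩
  have hidx : (LG p (omS p av α) fun j => rOm p av α (ι j)).relIndex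
      (ZG p fun j g => omS p av α (rOm p av α (ι j) g)) = p ^ d := by
    have h1 := hLq1 p K hK J av α h hs hsha ι b hb
    rw [← hC, hd, Nat.succ_eq_add_one, pow_succ] at h1
    exact Nat.eq_of_mul_eq_mul_right (Fact.out : p.Prime).pos h1
  have hker := (hLk1 p K hK J av α h hs hsha ι).2 b hb d y hyi hyr
  obtain ⟨T', t', e, hlt, hok⟩ := hTsk p (GS p av α) J
    (fun w => Gal(Kvs (av w)/(av w).Completion)) (omS p av α) hChO
    (fun w => rOm p av α (ι w)) (fun w => (hloc w).1) hH2 T t hT1 hT2 w₀ d y hidx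
    (hLw0 p K hK J av α h hs ι w₀) hker
  exact ⟨d, T', t', e, y, hs, hsha, hlt, hok, hyi, hyr, hb⟩

end Pool.Agent.MP72P
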