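import Pool.Agent.Lib.MP_72e2e6_nt.P3.L.Spec

/-!
# MP_72e2e6_nt, theorem T3p, part L: module Lw0 (everything can be moved to one place)
-/

namespace Pool.Agent.MP72P

open IntermediateField Finset

private theorem lw0_norm {K : Type} [Field K] (v : AbsoluteValue K ℝ) (x : K) :
    ‖algebraMap K v.Completion x‖ = v x :=
  UniformSpace.Completion.norm_coe (WithAbs.toAbs v x)

theorem tLw0 : S_Dsc → S_Str → S_Has → S_Hst → S_Rgo → S_Lcl → S_Lw0 := by
  intro hDsc hStr hHas hHst hRgo hLcl p _ K _ _ hK J _ av α h hHS ι w₀ f hf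
  classical
  obtain ⟨-, -, hGal, hα, haloc, halop, -, -, -, hr1, -⟩ := hHst p K hK J av α h hHS
  obtain ⟨-, -, -, -, -, -, hloc⟩ := hRgo p K hK J av α h hHS
  have halo0 : alo p av α ≠ 0 := by
    intro h0
    rw [h0] at haloc
    exact hα haloc.symm
  -- the local data
  have key : ∀ j, ∃ (x : K) (c : ZMod p) (ρ : ℝ), 0 < ρ ∧
      (∀ g, f j g = hP p (ι j α) (algebraMap K (av j).Completion x) g +
        (c - omc p (ι j α) g * c)) ∧
      ∀ a : K, av j (a - x) < ρ → a ∈ OS av → ∃ b : ZMod p, ∀ g, f j g =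
        hP p (alo p av α) a (rOm p av α (ι j) g) + (b - omc p (ι j α) g * b) := by
    intro j
    obtain ⟨Q, ϖ, R, hLF⟩ := hDsc p K hK (av j) (hHS.pls.ntr j)
    have hια : ι j α ≠ 0 := fun h0 => hα ((ι j).injective (h0.trans (map_zero (ι j)).symm))
    have hιp : ι j α ^ (p - 1) = algebraMap (av j).Completion (Kvs (av j))
        (algebraMap K (av j).Completion h) := by
      rw [← map_pow, hHS.al, (ι j).commutes]
      exact IsScalarTower.algebraMap_apply K (av j).Completion (Kvs (av j)) h
    have hchp : CharP (av j).Completion p :=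
      charP_of_injective_algebraMap (algebraMap K (av j).Completion).injective p
    obtain ⟨l1, ⟨ρ, hρ, l2⟩, l3, -⟩ := hLcl p K (av j) Q ϖ R hLF (ι j α) _ hια hιp
    obtain ⟨hcont, -, -, hom, -, hrg⟩ := hloc (av j) (ι j)
    have hfj : Coc (fun (g : Gal(Kvs (av j)/(av j).Completion)) (x : ZMod p) =>
        omc p (ι j α) g * x) (f j) := by
      have h1 : Coc (fun (g : Gal(Kvs (av j)/(av j).Completion)) (x : ZMod p) =>
        omS p av α (rOm p av α (ι j) g) * x) (f j) := hf j
      have h2 : (fun (g : Gal(Kvs (av j)/(av j).Completion)) (x : ZMod p) =>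
          omS p av α (rOm p av α (ι j) g) * x) = fun g x => omc p (ι j α) g * x := by
        funext g x
        rw [hom]
      rw [h2] at h1
      exact h1
    obtain ⟨x, c, hxc⟩ := l3 (f j) hfj
    refine ⟨x, c, ρ, hρ, hxc, fun a ha haO => ?_⟩
    have hn : ‖algebraMap K (av j).Completion (x - a)‖ ≤ ρ := by
      rw [lw0_norm, AbsoluteValue.map_sub]
      exact ha.le
    obtain ⟨c1, hc1⟩ := l2 _ hn
    have hx1 : ∀ y : (av j).Completion, ∃ x : Kvs (av j),
        Ph p (algebraMap (av j).Completion (Kvs (av j)) (algebraMap K (av j).Completion h)) x =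
          algebraMap (av j).Completion (Kvs (av j)) y := by
      intro y
      rw [← hιp]
      exact l1 y
    obtain ⟨c2, hc2⟩ := (hHas p (av j).Completion (Kvs (av j)) (ι j α) _ hια hιp).2.2.2.1
      (algebraMap K (av j).Completion (x - a)) (algebraMap K (av j).Completion a)
      (hx1 _) (hx1 _)
    obtain ⟨c3, hc3⟩ := hrg a haO
    have hxa : algebraMap K (av j).Completion (x - a) + algebraMap K (av j).Completion a =
        algebraMap K (av j).Completion x := by
      rw [← map_add, sub_add_cancel]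
    rw [hxa] at hc2
    refine ⟨c + c1 + c2 - c3, fun g => ?_⟩
    rw [hxc g, hc2 g, hc1 g, hc3 g]
    ring
  choose x c ρ hρ hxc hxa using key
  obtain ⟨ε, hε, hερ⟩ : ∃ ε : ℝ, 0 < ε ∧ ∀ j, ε ≤ ρ j := by
    have : Nonempty J := ⟨w₀⟩
    obtain ⟨j0, hj0⟩ := Finite.exists_min ρ
    exact ⟨ρ j0, hρ j0, hj0⟩
  obtain ⟨a₀, ha₀, ha⟩ := hStr p K hK J av hHS.pls w₀ x ε hε
  have hb : ∀ j, ∃ b : ZMod p, j ≠ w₀ → ∀ g, f j g =
      hP p (alo p av α) a₀ (rOm p av α (ι j) g) + (b - omc p (ι j α) g * b) := by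
    intro j
    by_cases hj : j = w₀
    · exact ⟨0, fun h => absurd hj h⟩
    · obtain ⟨b, hb⟩ := hxa j a₀ ((ha j hj).trans_le (hερ j)) ha₀
      exact ⟨b, fun _ => hb⟩
  choose b hb using hb
  -- the crossed homomorphism
  have hex : ∃ x : OmS p av α, Ph p (algebraMap K (OmS p av α) h) x =
      algebraMap K (OmS p av α) a₀ := by
    rw [← halop]
    exact hr1 a₀ ha₀
  have hcoc : Coc (fun (g : GS p av α) (x : ZMod p) => omS p av α g * x)
      (hP p (alo p av α) a₀) :=
    ((hHas p K (OmS p av α) (alo p av α) h halo0 halop).2.2.1 a₀ hex).1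
  have hoc : ∀ j g, omS p av α (rOm p av α (ι j) g) = omc p (ι j α) g := fun j =>
    (hloc (av j) (ι j)).2.2.2.1
  have hct : ∀ j, Continuous (rOm p av α (ι j)) := fun j => (hloc (av j) (ι j)).1
  let z : (GS p av α → ZMod p) × (J → ZMod p) := (hP p (alo p av α) a₀, fun j => -b j)
  have hpsi : ∀ j (g : Gal(Kvs (av j)/(av j).Completion)),
      psi (fun (g : GS p av α) (x : ZMod p) => omS p av α g * x) z j (rOm p av α (ι j) g) =
        hP p (alo p av α) a₀ (rOm p av α (ι j) g) +
          (b j - omS p av α (rOm p av α (ι j) g) * b j) := by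
    intro j g
    change hP p (alo p av α) a₀ (rOm p av α (ι j) g) -
      (-b j - omS p av α (rOm p av α (ι j) g) * -b j) = _
    ring
  have hP1 : (fun j g => psi (fun (g : GS p av α) (x : ZMod p) => omS p av α g * x) z j
      (rOm p av α (ι j) g)) ∈ LG p (omS p av α) fun j => rOm p av α (ι j) :=
    ⟨z, hcoc, fun j g => rfl⟩
  have hP2 : (fun j g => psi (fun (g : GS p av α) (x : ZMod p) => omS p av α g * x) z j
      (rOm p av α (ι j) g)) ∈ ZG p fun j g => omS p av α (rOm p av α (ι j) g) := by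
    intro j
    have hl : IsLocallyConstant fun g : Gal(Kvs (av j)/(av j).Completion) =>
        omS p av α (rOm p av α (ι j) g) := by
      have h1 : ChO p (omS p av α) := (hHst p K hK J av α h hHS).2.2.2.2.2.2.1
      exact h1.loc.comp_continuous (hct j)
    refine ⟨?_, fun g k => ?_⟩
    · simp only [hpsi]
      exact (hcoc.loc.comp_continuous (hct j)).comp₂ hl fun s t => s + (b j - t * b j)
    · have h1 : ChO p (omS p av α) := (hHst p K hK J av α h hHS).2.2.2.2.2.2.1
      simp only [hpsi]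
      rw [map_mul, hcoc.mul, h1.mul]
      ring
  refine ⟨f - fun j g => psi (fun (g : GS p av α) (x : ZMod p) => omS p av α g * x) z j
      (rOm p av α (ι j) g), AddSubgroup.sub_mem _ hf hP2, fun j hj => ?_, ?_⟩
  · funext g
    change f j g - psi (fun (g : GS p av α) (x : ZMod p) => omS p av α g * x) z j
      (rOm p av α (ι j) g) = 0
    rw [hpsi, hoc, hb j hj g, sub_self]
  · rw [sub_sub_cancel]
    exact hP1

end Pool.Agent.MP72P
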