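import Pool.Agent.Lib.MP_72e2e6_nt.P3.L.Spec

/-!
# MP_72e2e6_nt, theorem T3p, part L: the test system (abstract)
-/

set_option autoImplicit false

namespace Pool.Agent.MP72P

open Finset

/-- The local crossed homomorphisms as a submodule. -/
private def tskZl (p : ℕ) {Γ : Type} [Group Γ] [TopologicalSpace Γ] (ω : Γ → ZMod p) :
    Submodule (ZMod p) (Γ → ZMod p) where
  carrier := {f | Coc (fun g (x : ZMod p) => ω g * x) f}
  add_mem' := fun {a b} ha hb => ⟨ha.loc.add hb.loc, fun g h => by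
    simp only [Pi.add_apply, ha.mul, hb.mul]
    ring⟩
  zero_mem' := ⟨IsLocallyConstant.const 0, fun g h => by simp⟩
  smul_mem' := fun c f hf => ⟨hf.loc.comp (fun x => c * x), fun g h => by
    simp only [Pi.smul_apply, smul_eq_mul, hf.mul]
    ring⟩

private theorem tskMem {p : ℕ} {Γ : Type} [Group Γ] [TopologicalSpace Γ] {ω : Γ → ZMod p}
    {f : Γ → ZMod p} : f ∈ tskZl p ω ↔ Coc (fun g (x : ZMod p) => ω g * x) f := Iff.rfl

private theorem tskOne {p : ℕ} {Γ : Type} [Group Γ] [TopologicalSpace Γ] {ω : Γ → ZMod p}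
    (h1 : ω 1 = 1) {f : Γ → ZMod p} (hf : f ∈ tskZl p ω) : f 1 = 0 := by
  have h := (tskMem.1 hf).mul 1 1
  rw [mul_one, h1, one_mul] at h
  exact left_eq_add.1 h

private theorem tskFin {p : ℕ} {Γ T : Type} [Group Γ] [TopologicalSpace Γ] {ω : Γ → ZMod p}
    (h1 : ω 1 = 1) {t : T → Γ} (hc : ∀ N : Set Γ, IsOpen N → 1 ∈ N → {i | t i ∉ N}.Finite)
    {f : Γ → ZMod p} (hf : f ∈ tskZl p ω) : {i | f (t i) ≠ 0}.Finite :=
  hc {g | f g = 0} ((tskMem.1 hf).loc.isOpen_fiber 0) (tskOne h1 hf)

private theorem tskUq {p : ℕ} {Γ T : Type} [Group Γ] [TopologicalSpace Γ] {ω : Γ → ZMod p}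
    (h1 : ω 1 = 1) {t : T → Γ} (hc : ∀ N : Set Γ, IsOpen N → 1 ∈ N → {i | t i ∉ N}.Finite)
    (hu : ∀ v : T → ZMod p, {i | v i ≠ 0}.Finite → ∃! f : Γ → ZMod p,
      Coc (fun g (x : ZMod p) => ω g * x) f ∧ ∀ i, f (t i) = v i) {f f' : Γ → ZMod p}
    (hf : f ∈ tskZl p ω) (hf' : f' ∈ tskZl p ω) (h : ∀ i, f (t i) = f' (t i)) : f = f' :=
  (hu (fun i => f (t i)) (tskFin h1 hc hf)).unique ⟨hf, fun _ => rfl⟩ ⟨hf', fun i => (h i).symm⟩

theorem tTsk : S_Tsk := by
  classical
  intro p _ G J _ _ _ _ Γ _ _ _ ω hω r hr hH2 T t hconv hue w₀ d y hidx hmove hker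
  have hone : ∀ w, (fun g : Γ w => ω (r w g)) 1 = 1 := fun w => by simp [hω.one]
  set L := LG p ω r with hL
  set Z := ZG p (fun w g => ω (r w g)) with hZ
  -- the pairs give elements of `Z`
  have hpair : ∀ z : (G → ZMod p) × (J → ZMod p), Coc (fun g (x : ZMod p) => ω g * x) z.1 →
      (fun (w : J) (g : Γ w) => psi (fun g (x : ZMod p) => ω g * x) z w (r w g)) ∈ L := by
    intro z hz
    exact ⟨z, hz, fun j g => rfl⟩
  have hLZ : L ≤ Z := by
    rintro f ⟨z, hz, hf⟩ w
    have hf' : f w = fun g => psi (fun g (x : ZMod p) => ω g * x) z w (r w g) := funext (hf w)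
    rw [hf']
    refine ⟨?_, fun g h => ?_⟩
    · have h1 : IsLocallyConstant fun g : G => psi (fun g (x : ZMod p) => ω g * x) z w g := by
        refine hz.loc.sub ?_
        exact hω.loc.comp (fun x => z.2 w - x * z.2 w)
      exact h1.comp_continuous (hr w)
    · simp only [psi, map_mul, hz.mul, hω.mul]
      ring
  -- the basis
  have hb : ∀ i : T w₀, ∃ f : Γ w₀ → ZMod p, f ∈ tskZl p (fun g => ω (r w₀ g)) ∧
      ∀ i', f (t w₀ i') = if i' = i then 1 else 0 := by
    intro i
    obtain ⟨f, ⟨hf1, hf2⟩, -⟩ := hue w₀ (fun i' => if i' = i then 1 else 0)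
      ((Set.finite_singleton i).subset fun i' hi' => by
        by_contra h
        exact hi' (if_neg h))
    exact ⟨f, hf1, hf2⟩
  choose β hβ hβt using hb
  set b : T w₀ → (∀ w, Γ w → ZMod p) := fun i => Pi.single w₀ (β i) with hbdef
  have hb0 : ∀ i, b i w₀ = β i := fun i => by simp [hbdef]
  have hbw : ∀ i w, w ≠ w₀ → b i w = 0 := fun i w hw => by simp [hbdef, hw]
  have hbZ : ∀ i, b i ∈ Z := by
    intro i w
    by_cases hw : w = w₀
    · subst hw
      rw [hb0]
      exact hβ i
    · rw [hbw i w hw]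
      exact (tskZl p (fun g : Γ w => ω (r w g))).zero_mem
  set LL : Submodule (ZMod p) (∀ w, Γ w → ZMod p) := AddSubgroup.toZModSubmodule p L with hLL
  have hLLmem : ∀ f, f ∈ LL ↔ f ∈ L := fun f => Iff.rfl
  have hbspan : ∀ f ∈ Z, LL.mkQ f ∈
      Submodule.span (ZMod p) (Set.range fun i => LL.mkQ (b i)) := by
    intro f hf
    obtain ⟨f', hf'Z, hf'0, hff'⟩ := hmove f hf
    have h1 : LL.mkQ f = LL.mkQ f' := by
      have : LL.mkQ (f - f') = 0 := by
        rw [Submodule.mkQ_apply, Submodule.Quotient.mk_eq_zero]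
        exact hff'
      rw [map_sub] at this
      exact sub_eq_zero.1 this
    rw [h1]
    have hfin : {i | f' w₀ (t w₀ i) ≠ 0}.Finite := tskFin (hone w₀) (hconv w₀) (hf'Z w₀)
    have h2 : f' = ∑ i ∈ hfin.toFinset, f' w₀ (t w₀ i) • b i := by
      funext w
      by_cases hw : w = w₀
      · subst hw
        have hs : (∑ i ∈ hfin.toFinset, f' w (t w i) • b i) w =
            ∑ i ∈ hfin.toFinset, f' w (t w i) • β i := by
          rw [Finset.sum_apply]
          refine Finset.sum_congr rfl fun i _ => ?_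
          rw [Pi.smul_apply, hb0]
        rw [hs]
        refine tskUq (hone w) (hconv w) (hue w) (hf'Z w)
          (Submodule.sum_mem _ fun i _ => Submodule.smul_mem _ _ (hβ i)) fun i => ?_
        rw [Finset.sum_apply]
        simp only [Pi.smul_apply, hβt, smul_eq_mul, mul_ite, mul_one, mul_zero]
        rw [Finset.sum_ite_eq]
        by_cases hi : f' w (t w i) = 0
        · simp [hi]
        · rw [if_pos]
          simpa using hi
      · rw [hf'0 w hw, Finset.sum_apply]
        symm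
        refine Finset.sum_eq_zero fun i _ => ?_
        rw [Pi.smul_apply, hbw i w hw, smul_zero]
    rw [h2, map_sum]
    refine Submodule.sum_mem _ fun i _ => ?_
    rw [map_smul]
    exact Submodule.smul_mem _ _ (Submodule.subset_span ⟨i, rfl⟩)
  obtain ⟨κ, a, ha, hspan, hli⟩ := exists_linearIndependent' (ZMod p) (fun i => LL.mkQ (b i))
  have hcard : Nat.card (Submodule.span (ZMod p) (Set.range ((fun i => LL.mkQ (b i)) ∘ a))) =
      p ^ d := by
    rw [hspan, ← hidx]
    have h1 := AddSubgroup.relIndex_ker Z LL.mkQ.toAddMonoidHom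
    have h2 : LL.mkQ.toAddMonoidHom.ker = L := by
      ext f
      rw [AddMonoidHom.mem_ker]
      change LL.mkQ f = 0 ↔ f ∈ L
      rw [Submodule.mkQ_apply, Submodule.Quotient.mk_eq_zero]
      exact hLLmem f
    rw [h2] at h1
    rw [h1]
    refine Nat.card_congr (Equiv.setCongr ?_)
    ext x
    constructor
    · intro hx
      have h3 : Submodule.span (ZMod p) (Set.range fun i => LL.mkQ (b i)) ≤
          AddSubgroup.toZModSubmodule p (Z.map LL.mkQ.toAddMonoidHom) := by
        rw [Submodule.span_le]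
        rintro _ ⟨i, rfl⟩
        exact ⟨b i, hbZ i, rfl⟩
      exact h3 hx
    · rintro ⟨f, hf, rfl⟩
      exact hbspan f hf
  have hp : p.Prime := Fact.out
  have hWfin : Finite (Submodule.span (ZMod p) (Set.range ((fun i => LL.mkQ (b i)) ∘ a))) :=
    Nat.finite_of_card_ne_zero (by rw [hcard]; exact pow_ne_zero _ hp.ne_zero)
  have : Finite κ := by
    refine Finite.of_injective (fun k => (⟨((fun i => LL.mkQ (b i)) ∘ a) k,
      Submodule.subset_span ⟨k, rfl⟩⟩ :
        Submodule.span (ZMod p) (Set.range ((fun i => LL.mkQ (b i)) ∘ a)))) fun k k' hk => ?_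
    exact hli.injective (congrArg Subtype.val hk)
  let _ : Fintype κ := Fintype.ofFinite κ
  have hκ : Fintype.card κ = d := by
    have h1 := finrank_span_eq_card hli
    have h2 := Module.natCard_eq_pow_finrank (K := ZMod p)
      (V := Submodule.span (ZMod p) (Set.range ((fun i => LL.mkQ (b i)) ∘ a)))
    rw [hcard, h1, Nat.card_zmod] at h2
    exact (Nat.pow_right_injective hp.two_le h2).symm
  set φ : κ ≃ Fin d := Fintype.equivFinOfCardEq hκ
  set i₀ : Fin d → T w₀ := fun j => a (φ.symm j) with hi₀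
  have hi₀inj : Function.Injective i₀ := fun j j' h => φ.symm.injective (ha h)
  have hli' : LinearIndependent (ZMod p) (fun j : Fin d => LL.mkQ (b (i₀ j))) := by
    exact hli.comp φ.symm φ.symm.injective
  have hspan' : ∀ f ∈ Z, ∃ c : Fin d → ZMod p, f - ∑ j, c j • b (i₀ j) ∈ L := by
    intro f hf
    have h1 : LL.mkQ f ∈ Submodule.span (ZMod p) (Set.range fun j => LL.mkQ (b (i₀ j))) := by
      have h2 : (Set.range fun j => LL.mkQ (b (i₀ j))) =
          Set.range ((fun i => LL.mkQ (b i)) ∘ a) := by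
        ext x
        constructor
        · rintro ⟨j, rfl⟩
          exact ⟨φ.symm j, rfl⟩
        · rintro ⟨k, rfl⟩
          refine ⟨φ k, ?_⟩
          simp [hi₀]
      rw [h2, hspan]
      exact hbspan f hf
    obtain ⟨c, hc⟩ := (Submodule.mem_span_range_iff_exists_fun (ZMod p)).1 h1
    refine ⟨c, ?_⟩
    rw [← hLLmem, ← Submodule.Quotient.mk_eq_zero, ← Submodule.mkQ_apply, map_sub, map_sum,
      sub_eq_zero, ← hc]
    refine Finset.sum_congr rfl fun j _ => ?_
    rw [map_smul]
  -- the tests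
  set Rg : Set (Σ w, T w) := Set.range fun j => (⟨w₀, i₀ j⟩ : Σ w, T w) with hRg
  have hRw : ∀ w, w ≠ w₀ → ∀ i : T w, (⟨w, i⟩ : Σ w, T w) ∉ Rg := by
    rintro w hw i ⟨j, hj⟩
    exact hw (congrArg Sigma.fst hj).symm
  have hR0 : ∀ i : T w₀, (⟨w₀, i⟩ : Σ w, T w) ∈ Rg → ∃ j, i₀ j = i := by
    rintro i ⟨j, hj⟩
    exact ⟨j, by simpa using hj⟩
  have hRj : ∀ j, (⟨w₀, i₀ j⟩ : Σ w, T w) ∈ Rg := fun j => ⟨j, rfl⟩
  let T' : J → Type := fun w => {i : T w // (⟨w, i⟩ : Σ w, T w) ∉ Rg}
  let t' : ∀ w, T' w → Γ w := fun w i => t w i.1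
  let e : Fin d → Γ w₀ := fun j => t w₀ (i₀ j)
  -- the elements of `Z` without tests
  have hstar : ∀ f ∈ Z, (∀ w (i : T' w), f w (t' w i) = 0) →
      f = ∑ j, f w₀ (e j) • b (i₀ j) := by
    intro f hf hf0
    funext w
    by_cases hw : w = w₀
    · subst hw
      have hs : (∑ j, f w (e j) • b (i₀ j)) w = ∑ j, f w (e j) • β (i₀ j) := by
        rw [Finset.sum_apply]
        refine Finset.sum_congr rfl fun i _ => ?_
        rw [Pi.smul_apply, hb0]
      rw [hs]
      refine tskUq (hone w) (hconv w) (hue w) (hf w)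
        (Submodule.sum_mem _ fun i _ => Submodule.smul_mem _ _ (hβ _)) fun i => ?_
      rw [Finset.sum_apply]
      simp only [Pi.smul_apply, hβt, smul_eq_mul, mul_ite, mul_one, mul_zero]
      by_cases hi : (⟨w, i⟩ : Σ w, T w) ∈ Rg
      · obtain ⟨j, hj⟩ := hR0 i hi
        rw [Finset.sum_eq_single j]
        · rw [if_pos hj.symm, ← hj]
        · intro j' _ hj'
          exact if_neg fun h => hj' (hi₀inj (h.symm.trans hj.symm))
        · intro h
          exact absurd (Finset.mem_univ j) h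
      · rw [hf0 w ⟨i, hi⟩]
        symm
        refine Finset.sum_eq_zero fun j _ => if_neg fun h => hi ?_
        rw [h]
        exact hRj j
    · have h0 : f w = 0 := by
        refine tskUq (hone w) (hconv w) (hue w) (hf w)
          (tskZl p (fun g : Γ w => ω (r w g))).zero_mem fun i => ?_
        exact hf0 w ⟨i, hRw w hw i⟩
      rw [h0, Finset.sum_apply]
      symm
      refine Finset.sum_eq_zero fun i _ => ?_
      rw [Pi.smul_apply, hbw _ w hw, smul_zero]
  have hstar0 : ∀ f ∈ L, (∀ w (i : T' w), f w (t' w i) = 0) → f = 0 := by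
    intro f hf hf0
    have h1 := hstar f (hLZ hf) hf0
    have h2 : ∑ j, f w₀ (e j) • LL.mkQ (b (i₀ j)) = 0 := by
      have h3 : LL.mkQ f = 0 := by
        rw [Submodule.mkQ_apply, Submodule.Quotient.mk_eq_zero]
        exact hf
      rw [h1, map_sum] at h3
      rw [← h3]
      refine Finset.sum_congr rfl fun j _ => ?_
      rw [map_smul]
    have h4 := Fintype.linearIndependent_iff.1 hli' _ h2
    rw [h1]
    exact Finset.sum_eq_zero fun j _ => by rw [h4 j, zero_smul]
  -- elements of `Z` with given tests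
  have hex : ∀ v : (∀ w, T' w → ZMod p), (∀ w, {i | v w i ≠ 0}.Finite) →
      ∀ c : Fin d → ZMod p, ∃ f ∈ Z, (∀ w (i : T' w), f w (t' w i) = v w i) ∧
        ∀ j, f w₀ (e j) = c j := by
    intro v hv c
    let v' : ∀ w, T w → ZMod p := fun w i =>
      if h : (⟨w, i⟩ : Σ w, T w) ∈ Rg then c h.choose else v w ⟨i, h⟩
    have hv' : ∀ w, {i | v' w i ≠ 0}.Finite := by
      intro w
      have h1 : {i : T w | (⟨w, i⟩ : Σ w, T w) ∈ Rg}.Finite := by
        have h2 : Rg.Finite := Set.finite_range _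
        exact h2.preimage (f := fun i : T w => (⟨w, i⟩ : Σ w, T w))
          (fun i _ i' _ h => by simpa using h)
      refine (h1.union ((hv w).image Subtype.val)).subset fun i hi => ?_
      by_cases h : (⟨w, i⟩ : Σ w, T w) ∈ Rg
      · exact Or.inl h
      · refine Or.inr ⟨⟨i, h⟩, ?_, rfl⟩
        have h3 : v' w i = v w ⟨i, h⟩ := dif_neg h
        exact fun h4 => hi (h3.trans h4)
    have hf : ∀ w, ∃ f : Γ w → ZMod p, Coc (fun g (x : ZMod p) => ω (r w g) * x) f ∧
        ∀ i, f (t w i) = v' w i := fun w => (hue w (v' w) (hv' w)).exists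
    choose f hf1 hf2 using hf
    refine ⟨f, hf1, fun w i => ?_, fun j => ?_⟩
    · change f w (t w i.1) = _
      rw [hf2]
      exact dif_neg i.2
    · change f w₀ (t w₀ (i₀ j)) = _
      rw [hf2]
      have h1 : v' w₀ (i₀ j) = c (hRj j).choose := dif_pos (hRj j)
      rw [h1]
      have h2 := (hRj j).choose_spec
      have h3 : i₀ (hRj j).choose = i₀ j := by simpa using h2
      rw [hi₀inj h3]
  refine ⟨T', t', e, ⟨hr, hH2, ?_, ?_, ?_⟩, ?_⟩
  · intro w N hN h1
    exact (hconv w N hN h1).preimage (f := Subtype.val) (Subtype.val_injective.injOn)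
  · intro w hw v hv
    obtain ⟨f, ⟨hf1, hf2⟩, hf3⟩ := hue w (fun i => v ⟨i, hRw w hw i⟩) (by
      refine (hv.image Subtype.val).subset fun i hi => ⟨⟨i, hRw w hw i⟩, hi, rfl⟩)
    refine ⟨f, ⟨hf1, fun i => hf2 i.1⟩, fun f' hf' => hf3 f' ⟨hf'.1, fun i => ?_⟩⟩
    exact hf'.2 ⟨i, hRw w hw i⟩
  · intro v hv c
    obtain ⟨f, hfZ, hf1, hf2⟩ := hex
      (fun w => if h : w = w₀ then fun i => v (h ▸ i) else fun _ => 0) (by
        intro w
        by_cases hw : w = w₀
        · subst hw
          simpa using hv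
        · simp [hw]) c
    refine ⟨f w₀, ⟨hfZ w₀, fun i => ?_, hf2⟩, fun f' hf' => ?_⟩
    · have h := hf1 w₀ i
      simpa using h
    · refine tskUq (hone w₀) (hconv w₀) (hue w₀) hf'.1 (hfZ w₀) fun i => ?_
      by_cases hi : (⟨w₀, i⟩ : Σ w, T w) ∈ Rg
      · obtain ⟨j, hj⟩ := hR0 i hi
        rw [← hj]
        exact (hf'.2.2 j).trans (hf2 j).symm
      · have h := hf1 w₀ ⟨i, hi⟩
        have h' := hf'.2.1 ⟨i, hi⟩
        refine h'.trans ?_
        rw [show f w₀ (t w₀ i) = f w₀ (t' w₀ ⟨i, hi⟩) from rfl, h]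
        simp
  · -- the axioms of the test system
    have hconv' : ∀ w (N : Set (Γ w)), IsOpen N → 1 ∈ N → {i | t' w i ∉ N}.Finite := by
      intro w N hN h1
      exact (hconv w N hN h1).preimage (f := Subtype.val) (Subtype.val_injective.injOn)
    have hpz : ∀ z : (G → ZMod p) × (J → ZMod p), Coc (fun g (x : ZMod p) => ω g * x) z.1 →
        (∀ i : (tsL r t' w₀ e fun k => Sum.inr (y k)).I,
          psi (fun g (x : ZMod p) => ω g * x) z ((tsL r t' w₀ e fun k => Sum.inr (y k)).w i)
            ((tsL r t' w₀ e fun k => Sum.inr (y k)).t i) = 0) →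
        ∀ w g, psi (fun g (x : ZMod p) => ω g * x) z w (r w g) = 0 := by
      intro z hz h0 w g
      have h1 := hstar0 _ (hpair z hz) (fun w i => h0 ⟨w, i⟩)
      exact congrFun (congrFun h1 w) g
    refine ⟨?_, ?_, ?_, ?_, ?_, ?_⟩
    · intro i
      exact ⟨t' i.1 i.2, rfl⟩
    · intro j
      exact ⟨e j, rfl⟩
    · intro N hN h1
      have h2 : ∀ w, {i | t' w i ∉ (r w) ⁻¹' N}.Finite := fun w =>
        hconv' w _ (hN.preimage (hr w)) (by simpa using h1)
      refine (Set.finite_iUnion fun w => (h2 w).image (Sigma.mk w)).subset ?_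
      rintro ⟨w, i⟩ hi
      exact Set.mem_iUnion.2 ⟨w, ⟨i, hi, rfl⟩⟩
    · intro v hv c
      have hv1 : ∀ w, {i : T' w | v ⟨w, i⟩ ≠ 0}.Finite := fun w =>
        hv.preimage (f := fun i : T' w => (⟨w, i⟩ : Σ w, T' w))
          (fun i _ i' _ h => by simpa using h)
      obtain ⟨f, hfZ, hf1, -⟩ := hex (fun w i => v ⟨w, i⟩) hv1 0
      obtain ⟨c', hc'⟩ := hspan' f hfZ
      have hbt : ∀ j w (i : T' w), b (i₀ j) w (t' w i) = 0 := by
        intro j w i
        by_cases hw : w = w₀
        · subst hw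
          rw [hb0]
          change β (i₀ j) (t w i.1) = 0
          rw [hβt]
          refine if_neg fun h => i.2 ?_
          rw [h]
          exact hRj j
        · rw [hbw _ w hw]
          rfl
      obtain ⟨z₀, hz₀, hz₀f⟩ := hc'
      have hz₀t : ∀ w (i : T' w), psi (fun g (x : ZMod p) => ω g * x) z₀ w (r w (t' w i)) =
          v ⟨w, i⟩ := by
        intro w i
        rw [← hz₀f w (t' w i), Pi.sub_apply, Pi.sub_apply, Finset.sum_apply, Finset.sum_apply,
          Finset.sum_eq_zero, sub_zero]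
        · exact hf1 w i
        · intro j _
          rw [Pi.smul_apply, Pi.smul_apply, hbt, smul_zero]
      obtain ⟨z₁, hz₁, hz₁c⟩ := hker.surjOn (Set.mem_univ fun k => c k - z₀.2 (y k))
      have hadd : ∀ (z z' : (G → ZMod p) × (J → ZMod p)) w g,
          psi (fun g (x : ZMod p) => ω g * x) (z + z') w g =
            psi (fun g (x : ZMod p) => ω g * x) z w g +
              psi (fun g (x : ZMod p) => ω g * x) z' w g := by
        intro z z' w g
        simp only [psi, Prod.fst_add, Prod.snd_add, Pi.add_apply]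
        ring
      have hsub : ∀ (z z' : (G → ZMod p) × (J → ZMod p)) w g,
          psi (fun g (x : ZMod p) => ω g * x) (z - z') w g =
            psi (fun g (x : ZMod p) => ω g * x) z w g -
              psi (fun g (x : ZMod p) => ω g * x) z' w g := by
        intro z z' w g
        simp only [psi, Prod.fst_sub, Prod.snd_sub, Pi.sub_apply]
        ring
      refine ⟨z₀ + z₁, ⟨(tskZl p ω).add_mem hz₀ hz₁.1, ?_, ?_⟩, ?_⟩
      · rintro ⟨w, i⟩
        rw [hadd]
        have h1 := hz₁.2 w (r w (t' w i)) ⟨_, rfl⟩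
        have h2 := hz₀t w i
        change psi (fun g (x : ZMod p) => ω g * x) z₀ w (r w (t' w i)) +
          psi (fun g (x : ZMod p) => ω g * x) z₁ w (r w (t' w i)) = _
        rw [h1, h2, add_zero]
      · intro k
        have h1 := congrFun hz₁c k
        change z₀.2 (y k) + z₁.2 (y k) = c k
        have h2 : z₁.2 (y k) = c k - z₀.2 (y k) := h1
        rw [h2]
        ring
      · rintro z ⟨hz1, hz2, hz3⟩
        have hd1 : Coc (fun g (x : ZMod p) => ω g * x) (z - (z₀ + z₁)).1 :=
          (tskZl p ω).sub_mem hz1 ((tskZl p ω).add_mem hz₀ hz₁.1)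
        have hd2 := hpz (z - (z₀ + z₁)) hd1 (by
          rintro ⟨w, i⟩
          rw [hsub, hz2 ⟨w, i⟩, hadd]
          have h1 := hz₁.2 w (r w (t' w i)) ⟨_, rfl⟩
          have h2 := hz₀t w i
          change _ - (psi (fun g (x : ZMod p) => ω g * x) z₀ w (r w (t' w i)) +
            psi (fun g (x : ZMod p) => ω g * x) z₁ w (r w (t' w i))) = _
          rw [h1, h2, add_zero, sub_self])
        have hmem : (z - (z₀ + z₁)) ∈ Ker (fun g (x : ZMod p) => ω g * x)
            fun w => (r w).range := by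
          refine ⟨hd1, ?_⟩
          rintro w _ ⟨g, rfl⟩
          exact hd2 w g
        have hmem0 : (0 : (G → ZMod p) × (J → ZMod p)) ∈ Ker (fun g (x : ZMod p) => ω g * x)
            fun w => (r w).range := by
          refine ⟨(tskZl p ω).zero_mem, ?_⟩
          intro w g _
          simp [psi]
        have h0 : z - (z₀ + z₁) = 0 := by
          refine hker.injOn hmem hmem0 ?_
          funext k
          have h1 : z.2 (y k) = c k := hz3 k
          have h2 : z₁.2 (y k) = c k - z₀.2 (y k) := congrFun hz₁c k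
          change z.2 (y k) - (z₀.2 (y k) + z₁.2 (y k)) = 0
          rw [h1, h2]
          ring
        exact sub_eq_zero.1 h0
    · intro z hz h0 j
      exact hpz z hz h0 w₀ (e j)
    · intro w f hf hf1 hf2
      have hfc : (fun g : Γ w => f ⟨r w g, ⟨g, rfl⟩⟩) ∈ tskZl p (fun g => ω (r w g)) := by
        refine ⟨?_, fun g h => ?_⟩
        · exact hf.loc.comp_continuous ((hr w).subtype_mk fun g => ⟨g, rfl⟩)
        · have h1 := hf.mul ⟨r w g, ⟨g, rfl⟩⟩ ⟨r w h, ⟨h, rfl⟩⟩
          rw [← h1]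
          congr 1
          exact Subtype.ext (map_mul (r w) g h)
      have h0 : (fun g : Γ w => f ⟨r w g, ⟨g, rfl⟩⟩) = 0 := by
        refine tskUq (hone w) (hconv w) (hue w) hfc (Submodule.zero_mem _) fun i => ?_
        by_cases hi : (⟨w, i⟩ : Σ w, T w) ∈ Rg
        · obtain ⟨j, hj⟩ := hi
          have hw : w₀ = w := congrArg Sigma.fst hj
          subst hw
          have hij : i₀ j = i := by simpa using hj
          exact hf2 j ⟨r w₀ (t w₀ i), ⟨_, rfl⟩⟩ rfl (by
            change r w₀ (t w₀ i) = r w₀ (t w₀ (i₀ j))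
            rw [hij])
        · exact hf1 ⟨w, ⟨i, hi⟩⟩ ⟨r w (t w i), ⟨_, rfl⟩⟩ rfl rfl
      funext x
      obtain ⟨x, g, rfl⟩ := x
      exact congrFun h0 g

end Pool.Agent.MP72P
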