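import Pool.Agent.Lib.MP_72e2e6_nt.P3.L.Defs
import Pool.Agent.Lib.MP_72e2e6_nt.P3.G.Spec
import Pool.Agent.Lib.MP_72e2e6_nt.P3.A2.Spec

/-!
# MP_72e2e6_nt, theorem T3p, part L: level one, local tests

The proofs are complete in the docstrings; every module is independent (used statements are
hypotheses): file `P3/L/<Name>.lean` (import this file only) with `theorem t<Name> : S_<Name>` or
`theorem t<Name> (h1 : S_X) (h2 : S_Y) .. : S_<Name>` (in the order of the docstring), namespace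
`Pool.Agent.MP72P`, other declarations `private`. All types are in `Type`. Statements of `P3/A`, `A2`, `B`, `C`, `G`, `N`
may be used. Notation: `A = OS av`, `G = GS p av α`, `ω = omS p av α`, `Γ_j = Gal(Kvs (av j)/K_j)`,
`K_j = (av j).Completion`, `r_j = rOm p av α (ι j)`, `ω_j = ω ∘ r_j = omc p (ι j α)` (`S_Rgo`), `D_j = DS p av α ι j` the range of
`r_j`, `P(x) = Ph p h x = x ^ p - h x`. `α ≠ 0` as `h ≠ 0`. A coboundary is a function of the form `g ↦ c - ω g * c`.
-/

namespace Pool.Agent.MP72P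

open IntermediateField Finset

/-! ### 1. Local tests -/

/-- **Cnk** (80 lines). Global function fields are countable.

Proof. `F` is finite, so `F[X]` is countable, `RatFunc F` is countable (quotients of polynomials; `IsFractionRing`),
`K` is a finite dimensional vector space over it, and `Kgs K` is algebraic over `K` (countably many polynomials,
finitely many roots; `Algebra.IsAlgebraic.cardinalMk_le_max` or similar). -/
def S_Cnk : Prop :=
  ∀ (p : ℕ) [Fact p.Prime] (K : Type) [Field K] [CharP K p], GFld p K →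
    Countable K ∧ Countable (Kgs K)

/-- **Krs** (200 lines, uses `S_Lc1`, `S_Lc2`). `Kvs v` is generated by the algebraic elements of `K`.

Proof. Let `f` be the minimal polynomial of `x` over `k = v.Completion`, of degree `n`, with the (distinct) roots
`x_1, .., x_n ∈ Kvs v`, and `δ > 0` the minimum of the `nm (x_i - x_l)`, `i ≠ l` (or `1`). `K` is dense in `k`, so there is a
monic `g ∈ K[X]` of degree `n` with coefficients so near those of `f` that `nm (g(x_i)) < δ ^ n` for all `i`. Let `C` be the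
algebraic closure of `k` (containing `Kvs v`, spectral norm `|.|`, multiplicative and nonarchimedean,
`spectralNorm_eq_...`), `g = ∏ (X - b_l)`. `|g(x_i)| = ∏ |x_i - b_l| < δ ^ n`, so there is `l(i)` with
`|x_i - b_l(i)| < δ`; `l` is injective (otherwise `|x_i - x_i'| < δ`), so the `b_l` are distinct and `g` is separable. So `g` splits
over `Kgs K` (separably closed) and `b_l(1) = ι y` for some `y ∈ Kgs K`. By Krasner's lemma (Mathlib:
`IsKrasner.krasner`, `IsKrasner.of_completeSpace`, with the spectral norm on `Kvs v` or on `C`)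
`x_1 ∈ k⟮ι y⟯` as `|x_1 - ι y| < δ ≤ |x_1 - x'|` for the other conjugates `x'`. (Apply it for `x = x_1`.) Instead of the
algebraic closure one can use `a f + b f' = 1` to see that `g` is separable if it is near `f`. -/
def S_Krs : Prop :=
  ∀ (p : ℕ) [Fact p.Prime] (K : Type) [Field K] [CharP K p] (v : AbsoluteValue K ℝ) (Q : ℕ)
    (ϖ : K) (R : Finset K), LF v p Q ϖ R → ∀ (ι : Kgs K →ₐ[K] Kvs v) (x : Kvs v),
    ∃ y : Kgs K, x ∈ v.Completion⟮ι y⟯

/-- **Cbg** (100 lines, uses `S_Krs`). A countable basis of neighbourhoods of `1` in the local Galois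
group.

Proof. For `y ∈ Kgs K` let `U y = (v.Completion⟮ι y⟯).fixingSubgroup`, open; enumerate the countable type `Kgs K` (nonempty). Let
`N` be open, `1 ∈ N`. There is a finite extension `E` of `v.Completion` in `Kvs v` with `E.fixingSubgroup ⊆ N` (Krull topology),
`E = v.Completion⟮x⟯` (primitive element, `E` is separable), and `x ∈ v.Completion⟮ι y⟯` for some `y` (`S_Krs`). So `U y ⊆ N`. -/
def S_Cbg : Prop :=
  ∀ (p : ℕ) [Fact p.Prime] (K : Type) [Field K] [CharP K p], Countable (Kgs K) →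
    ∀ (v : AbsoluteValue K ℝ) (Q : ℕ) (ϖ : K) (R : Finset K), LF v p Q ϖ R →
    Nonempty (Kgs K →ₐ[K] Kvs v) →
    ∃ U : ℕ → Subgroup Gal(Kvs v/v.Completion), (∀ n, IsOpen (U n : Set Gal(Kvs v/v.Completion))) ∧
      ∀ N : Set Gal(Kvs v/v.Completion), IsOpen N → 1 ∈ N →
        ∃ n, (U n : Set Gal(Kvs v/v.Completion)) ⊆ N

/-- **Dbs** (250 lines, uses `S_Fdl`). Dual bases which converge to `1` (abstract).

Proof. Let `V` be the group of the crossed homomorphisms, enumerated as `c_0, c_1, ..` (countable, contains `0`), and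
`M_n = {g | g ∈ U k for all k ≤ n, ω g = 1, c_k g = 0 for all k < n}`: an open subgroup
(`c_k (g h) = c_k g + ω g * c_k h`), decreasing, and every neighbourhood of `1` contains some `M_n`. Let
`W_n = {c ∈ V | c = 0 on M_n}`: increasing, `c_k ∈ W_(k + 1)`, so `V = ⋃ W_n`. For `c ∈ W_n` `c (g u) = c g + ω g * c u = c g` for
`u ∈ M_n`, so `c` is a function on the finite set `Γ / M_n`: `W_n` is finite. By `S_Fdl` for `W_0` there is a finite set (family)
`T_0 ⊆ Γ` such that the evaluation `W_0 → (ZMod p) ^ T_0` is bijective; and for the group of the restrictions to `M_n` of the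
elements of `W_(n + 1)` there is a finite family `T_(n + 1)` in `M_n` such that the evaluation is bijective (the kernel of
`W_(n + 1) → (ZMod p) ^ T_(n + 1)` is `W_n`). Let `T` be the disjoint union `Σ n, T_n` (`T_n = Fin (d_n)`). Only finitely many
elements of `T` are outside of `M_n`. Let `v` have finite support, contained in `T_0, .., T_n`. By induction on `n` there is exactly
one `f ∈ W_n` with the values `v` at `T_0, .., T_n` (first choose `f' ∈ W_n` with the values `v` at `T_n`, then correct it by an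
element of `W_(n - 1)`, which vanishes on `M_(n-1) ⊇ T_n`); `f` vanishes at the `T_k`, `k > n`, as `T_k ⊆ M_(k - 1) ⊆ M_n`.
Uniqueness: `f ∈ V` with values `0` at `T` is in some `W_n`, so `0`. -/
def S_Dbs : Prop :=
  ∀ (p : ℕ) [Fact p.Prime] (Γ : Type) [Group Γ] [TopologicalSpace Γ] [IsTopologicalGroup Γ]
    [CompactSpace Γ] (ω : Γ → ZMod p), ChO p ω →
    (∃ U : ℕ → Subgroup Γ, (∀ n, IsOpen (U n : Set Γ)) ∧
      ∀ N : Set Γ, IsOpen N → 1 ∈ N → ∃ n, (U n : Set Γ) ⊆ N) →
    {c : Γ → ZMod p | Coc (fun g (x : ZMod p) => ω g * x) c}.Countable →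
    ∃ (T : Type) (t : T → Γ), (∀ N : Set Γ, IsOpen N → 1 ∈ N → {i | t i ∉ N}.Finite) ∧
      ∀ v : T → ZMod p, {i | v i ≠ 0}.Finite → ∃! f : Γ → ZMod p,
        Coc (fun g (x : ZMod p) => ω g * x) f ∧ ∀ i, f (t i) = v i

/-- **Dbl** (80 lines, uses `S_Cnk`, `S_Cbg`, `S_Dbs`, `S_Lc2`, `S_Has`, `S_Lcl`). Local tests.

Proof. `S_Dbs` for `Γ = Gal(Kvs v/v.Completion)`, `ω = omc p α` (`S_Has` (1)); the first hypothesis is `S_Cbg` (there is an
embedding `Kgs K → Kvs v`: `IsSepClosed.lift` or similar, `Kvs v` is separably closed). The crossed homomorphisms are the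
functions `hP p α f + (c - ω c)`, `f ∈ K`, `c ∈ ZMod p` (`S_Lcl` (3)): a countable set. -/
def S_Dbl : Prop :=
  ∀ (p : ℕ) [Fact p.Prime] (K : Type) [Field K] [CharP K p], GFld p K →
    ∀ (v : AbsoluteValue K ℝ) (Q : ℕ) (ϖ : K) (R : Finset K), LF v p Q ϖ R →
    ∀ (α : Kvs v) (h : v.Completion), α ≠ 0 → α ^ (p - 1) = algebraMap v.Completion (Kvs v) h →
    ∃ (T : Type) (t : T → Gal(Kvs v/v.Completion)),
      (∀ N : Set Gal(Kvs v/v.Completion), IsOpen N → 1 ∈ N → {i | t i ∉ N}.Finite) ∧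
      ∀ v' : T → ZMod p, {i | v' i ≠ 0}.Finite → ∃! f : Gal(Kvs v/v.Completion) → ZMod p,
        Coc (fun g (x : ZMod p) => omc p α g * x) f ∧ ∀ i, f (t i) = v' i

/-! ### 2. The kernel and the cokernel at level one -/

/-- **Lk1** (200 lines, uses `S_Has`, `S_Hst`, `S_Rgo`). The kernel.

Proof. (1) `→`: let `(c, a) ∈ Ker`. `c = hP p (alo) f + (c₀ - ω c₀)` with `f ∈ A` (`S_Hst`). For every `j` and `g ∈ Γ_j`
`0 = c (r_j g) - (a j - ω (r_j g) * a j)`, so `hP p (alo) f (r_j g)` is a coboundary on `Γ_j`, so `hP p (ι j α) f` is a coboundary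
(`S_Rgo`, the last formula), so `f = P(y)` with `y ∈ K_j` (`S_Has` (5); the root in `Kvs` exists: apply `ι j` to a root in
`OmS`). So `f ∈ ShN = PhN`, `f = P(x)` with `x ∈ K`, and `hP p (alo) f` is a coboundary (`S_Has` (5)): `c g = b - ω g * b`. For
`g ∈ D_j`: `0 = (b - a j) * (1 - ω g)`, so `a j = b` if `ω g ≠ 1` for some `g ∈ D_j`. `←`: clear (`ω` is locally constant).
(2) By (1). If `ω = 1` then `y` is a bijection to `J` (every `w` is in the range) and `Ker` is the set of the `(0, a)`. If `ω ≠ 1` then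
`ω ≠ 1` on `D_b` and `(c, a) ∈ Ker` is determined by the `a (y k)`: `b₁ = a b`, `c = b₁ - ω b₁`, `a w = b₁` for `w` not in the range; and
for given values `s k` let `b₁ = s k_b` (`y k_b = b`), `c = b₁ - ω b₁`, `a (y k) = s k`, `a w = b₁` for the other `w`. -/
def S_Lk1 : Prop :=
  ∀ (p : ℕ) [Fact p.Prime] (K : Type) [Field K] [CharP K p], GFld p K →
    ∀ (J : Type) (av : J → AbsoluteValue K ℝ) (α : Kgs K) (h : K), HS p av α h →
    ShN p av h = PhN p av h → ∀ ι : ∀ j, Kgs K →ₐ[K] Kvs (av j),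
    (∀ z : (GS p av α → ZMod p) × (J → ZMod p),
      z ∈ Ker (fun g (x : ZMod p) => omS p av α g * x) (DS p av α ι) ↔
        ∃ b : ZMod p, (∀ g, z.1 g = b - omS p av α g * b) ∧
          ∀ w, (∃ g ∈ DS p av α ι w, omS p av α g ≠ 1) → z.2 w = b) ∧
    ∀ b : J, ((∀ g, omS p av α g = 1) ∨ ∃ g ∈ DS p av α ι b, omS p av α g ≠ 1) →
      ∀ (d : ℕ) (y : Fin (d + 1) → J), Function.Injective y →
      (∀ w, w ∈ Set.range y ↔ w = b ∨ ∀ g ∈ DS p av α ι w, omS p av α g = 1) →
      Set.BijOn (fun (z : (GS p av α → ZMod p) × (J → ZMod p)) (k : Fin (d + 1)) => z.2 (y k))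
        (Ker (fun g (x : ZMod p) => omS p av α g * x) (DS p av α ι)) Set.univ

/-- **Lq1** (300 lines, uses `S_Dsc`, `S_Str`, `S_Den`, `S_Eul`, `S_Lc1`, `S_Has`, `S_Hst`, `S_Rgo`, `S_Lcl`). The order of the
cokernel.

Proof. Let `Z = ZG`, `L = LG ≤ Z`. Let `r > 0` be such that for every `j` and `f ∈ K_j` with `‖f‖ ≤ r` `hP p (ι j α) f` is a coboundary
(`S_Lcl` (2)) and `f = P(y)` for some `y ∈ K_j` (`S_Has` (5)), and `r ≤ ρ` for the `ρ` of `S_Eul`. Write `x ~ f` if
`x ∈ K`, `f ∈ Z`, and `f j - hP p (ι j α) x` is a coboundary for every `j`. For `x ∈ K` there is `f` with `x ~ f` (`S_Has` (3)); if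
`x ~ f`, `x' ~ f'` then `x + x' ~ f + f'` (`S_Has` (4)); families of coboundaries are in `L` (pairs `(0, a)`). (a) For every `f ∈ Z` there
is `x ∈ K` with `x ~ f`: `f j = hP p (ι j α) x_j` up to a coboundary with `x_j ∈ K` (`S_Lcl` (3)); choose `x ∈ K` with
`av j (x - x_j) ≤ r` for all `j` (weak approximation, `S_Den`). (b) If `x ~ f` then `f ∈ L` iff
`x ∈ A + P(K) + Bl av r`: if `f j = psi (c, a) j ∘ r_j` with `c = hP p (alo) a₀` up to a coboundary, `a₀ ∈ A` (`S_Hst`), then
`hP p (ι j α) (x - a₀)` is a coboundary (`S_Rgo`), `x - a₀ = P(y_j)`, `y_j ∈ K_j`; let `y ∈ K` with `‖y - y_j‖` so small that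
`‖P(y - y_j)‖ ≤ r`; then `x - a₀ - P(y) ∈ Bl av r`. Conversely for `x = a₀ + P(y) + z`: `hP p (ι j α) x` is
`hP p (ι j α) a₀` up to a coboundary, which is `hP p (alo) a₀ ∘ r_j` up to a coboundary (`S_Rgo`). So `Z / L` is isomorphic to
`K / (A + P(K) + Bl av r)`. (c) `S_Eul`: `#(Z / L) * #{x ∈ K | P x = 0} = ∏ #{x ∈ K_j | P x = 0}` (`ShN / PhN` is trivial). The
roots of `P` in `K^s` are the `c α`, `c` in the prime field. So `#{x ∈ K | P x = 0}` is `p` if `α ∈ K`, i.e. if `ω = 1` (`omS` is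
`omc p α` on `Gal(Kgs K/K)`, `S_Rgo`; Galois theory), and `1` otherwise. In the same way `#{x ∈ K_j | P x = 0}` is `p` if
`ω = 1` on `D_j` and `1` otherwise. If `ω = 1` then `{w | ..}` is `J` and `#(Z / L) * p = p ^ #J`. If `ω ≠ 1` then `b` is not one of the
places with `ω = 1` on `D_w`, and `#(Z / L) = p ^ (#{w | ..} - 1)`. -/
def S_Lq1 : Prop :=
  ∀ (p : ℕ) [Fact p.Prime] (K : Type) [Field K] [CharP K p], GFld p K →
    ∀ (J : Type) [Fintype J] (av : J → AbsoluteValue K ℝ) (α : Kgs K) (h : K), HS p av α h →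
    ShN p av h = PhN p av h → ∀ (ι : ∀ j, Kgs K →ₐ[K] Kvs (av j)) (b : J),
      ((∀ g, omS p av α g = 1) ∨ ∃ g ∈ DS p av α ι b, omS p av α g ≠ 1) →
      (LG p (omS p av α) fun j => rOm p av α (ι j)).relIndex
        (ZG p fun j g => omS p av α (rOm p av α (ι j) g)) * p =
        p ^ {w | w = b ∨ ∀ g ∈ DS p av α ι w, omS p av α g = 1}.ncard

/-- **Lw0** (150 lines, uses `S_Dsc`, `S_Str`, `S_Has`, `S_Hst`, `S_Rgo`, `S_Lcl`). Everything can be moved to one place.

Proof. `f j` is `hP p (ι j α) x_j` up to a coboundary with `x_j ∈ K` (`S_Lcl` (3)). Let `a₀ ∈ A` with `av j (a₀ - x_j)` so small for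
`j ≠ w₀` that `hP p (ι j α) (x_j - a₀)` is a coboundary (`S_Str`, `S_Lcl` (2)). By `S_Has` (4) and `S_Rgo` `f j` is
`c ∘ r_j`, `c = hP p (alo) a₀`, up to a coboundary `β_j - ω β_j` for all `j ≠ w₀`. Let `f'` be `f` minus the local parts of the pair
`(c, a)`, `a j = - β_j` for `j ≠ w₀`, `a w₀ = 0`. -/
def S_Lw0 : Prop :=
  ∀ (p : ℕ) [Fact p.Prime] (K : Type) [Field K] [CharP K p], GFld p K →
    ∀ (J : Type) [Fintype J] (av : J → AbsoluteValue K ℝ) (α : Kgs K) (h : K), HS p av α h →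
    ∀ (ι : ∀ j, Kgs K →ₐ[K] Kvs (av j)) (w₀ : J),
    ∀ f ∈ ZG p fun j g => omS p av α (rOm p av α (ι j) g),
      ∃ f' ∈ ZG p fun j g => omS p av α (rOm p av α (ι j) g), (∀ j, j ≠ w₀ → f' j = 0) ∧
        f - f' ∈ LG p (omS p av α) fun j => rOm p av α (ι j)

/-! ### 3. The test systems -/

/-- **Tsk** (350 lines). The test system (abstract).

Proof. Let `Z = ZG`, `L = LG ≤ Z` (as `r w` is continuous), `Q = Z / L` of order `p ^ d`, killed by `p`. For `i ∈ T w₀` let `b_i` be the
crossed homomorphism on `Γ w₀` with `b_i (t i') = if i' = i then 1 else 0`, extended by `0` to an element of `Z`. Every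
element of `Z` which vanishes at the `w ≠ w₀` is a finite linear combination of the `b_i` (`conv`: it has finite support on
the tests). So the classes of the `b_i` generate `Q` (hypothesis), a vector space of dimension `d` over `ZMod p`, and there are
`i_j`, `j : Fin d` (distinct), such that the classes of the `b_(i_j)` are a basis. Let `e j = t (i_j)`,
`T' w = {i : T w // ⟨w, i⟩ is not one of the ⟨w₀, i_j⟩}`, `t'` the restriction of `t`. `LTs`: `conv` clear; `ue`: for `w ≠ w₀` `T' w` is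
all of `T w`; `u0`: `v` on `T' w₀` and `c` together are a function on `T w₀`. `Ok`: `ti`, `ej` clear; `conv`:
`{(w, i) | r w (t' i) ∉ N}` is the finite union over `w` of the `{i | t' i ∉ (r w)⁻¹ N}`. For an element `f ∈ Z` with all tests `T'`
equal to `0`: `f = ∑_j c_j b_(i_j)`, `c_j = f w₀ (e j)` (values at all tests are equal); if moreover `f ∈ L` then all `c_j = 0` by the
choice of the `i_j`, so `f = 0`. (*) `t0`: for the pair `z` apply (*) to its local parts: `f = 0`, so all extra tests are `0`.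
`ue`, uniqueness: the difference `z` of two solutions has tests `0`, so by (*) `z ∈ Ker`, and the coordinates are `0`, so
`z = 0` (bijectivity of the coordinates on `Ker`). Existence: let `f ∈ Z` with the values `v` at the tests `T'` (and `0` at the
`e j`). In `Q` `f = ∑ c_j b_(i_j)`, so `f - ∑ c_j b_(i_j) ∈ L` has the values `v` at the tests `T'`; it is the family of the local
parts of a pair; correct it by an element of `Ker` to get the right coordinates. `det`: let `f` be a crossed homomorphism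
on the range `D w` of `r w`; `g ↦ f (r w g)` is a crossed homomorphism on `Γ w` (continuity) which vanishes at all tests (and
the `e j` if `w = w₀`), so it is `0`. -/
def S_Tsk : Prop :=
  ∀ (p : ℕ) [Fact p.Prime] (G J : Type) [Group G] [TopologicalSpace G] [IsTopologicalGroup G]
    [Fintype J] (Γ : J → Type) [∀ w, Group (Γ w)] [∀ w, TopologicalSpace (Γ w)]
    [∀ w, IsTopologicalGroup (Γ w)] (ω : G → ZMod p), ChO p ω → ∀ (r : ∀ w, Γ w →* G),
    (∀ w, Continuous (r w)) → (∀ w, H2Z p fun g => ω (r w g)) →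
    ∀ (T : J → Type) (t : ∀ w, T w → Γ w),
      (∀ w (N : Set (Γ w)), IsOpen N → 1 ∈ N → {i | t w i ∉ N}.Finite) →
      (∀ w (v : T w → ZMod p), {i | v i ≠ 0}.Finite → ∃! f : Γ w → ZMod p,
        Coc (fun g (x : ZMod p) => ω (r w g) * x) f ∧ ∀ i, f (t w i) = v i) →
    ∀ (w₀ : J) (d : ℕ) (y : Fin (d + 1) → J),
      (LG p ω r).relIndex (ZG p fun w g => ω (r w g)) = p ^ d →
      (∀ f ∈ ZG p fun w g => ω (r w g), ∃ f' ∈ ZG p fun w g => ω (r w g),
        (∀ w, w ≠ w₀ → f' w = 0) ∧ f - f' ∈ LG p ω r) →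
      Set.BijOn (fun (z : (G → ZMod p) × (J → ZMod p)) (k : Fin (d + 1)) => z.2 (y k))
        (Ker (fun g (x : ZMod p) => ω g * x) fun w => (r w).range) Set.univ →
      ∃ (T' : J → Type) (t' : ∀ w, T' w → Γ w) (e : Fin d → Γ w₀), LTs p ω r t' w₀ e ∧
        (tsL r t' w₀ e fun k => Sum.inr (y k)).Ok p ω fun w => (r w).range

/-- **Lts** (150 lines, uses `S_Dsc`, `S_Sep`, `S_Hst`, `S_Rgo`, `S_Dbl`, `S_Lk1`, `S_Lq1`, `S_Lw0`, `S_Tsk`). THE TEST SYSTEM.

Proof. Let `C = {w | w = b ∨ ..}`, a finite nonempty set, `d + 1` its number of elements, `y : Fin (d + 1) → J` an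
injective enumeration. `S_Tsk` for `G = GS p av α`, `Γ j = Gal(Kvs (av j)/(av j).Completion)`, `r j = rOm p av α (ι j)`:
continuous and `omS (rOm ι g) = omc p (ι α) g` by `S_Rgo`, `H2Z` by `S_Sep` (1), local tests by `S_Dbl` (with `α = ι j α`,
`h = algebraMap K _ h`; `S_Dsc` gives `LF`), the index is `p ^ d` by `S_Lq1`, `S_Lw0`, coordinates by `S_Lk1`. -/
def S_Lts : Prop :=
  ∀ (p : ℕ) [Fact p.Prime] (K : Type) [Field K] [CharP K p], GFld p K →
    ∀ (J : Type) [Fintype J] (av : J → AbsoluteValue K ℝ) (α : Kgs K) (h : K), HS p av α h →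
    ShN p av h = PhN p av h → ∀ (ι : ∀ j, Kgs K →ₐ[K] Kvs (av j)) (w₀ b : J),
      ((∀ g, omS p av α g = 1) ∨ ∃ g ∈ DS p av α ι b, omS p av α g ≠ 1) →
      ∃ (d : ℕ) (T : J → Type) (t : ∀ j, T j → Gal(Kvs (av j)/(av j).Completion))
        (e : Fin d → Gal(Kvs (av w₀)/(av w₀).Completion)) (y : Fin (d + 1) → J),
        TsH p av α h ι t w₀ e y b

end Pool.Agent.MP72P
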