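import Pool.Agent.Lib.MP_72e2e6_nt.P3.L.Spec

/-!
# MP_72e2e6_nt, theorem T3p, part L: global function fields are countable
-/

namespace Pool.Agent.MP72P

open Polynomial Cardinal in
private theorem Cnk_rat (F : Type) [Field F] [Finite F] : Countable (RatFunc F) := by
  have h1 : Countable F[X] := by
    rw [← Cardinal.mk_le_aleph0_iff]
    refine (Polynomial.cardinalMk_le_max (R := F)).trans ?_
    exact max_le (Cardinal.mk_le_aleph0_iff.mpr inferInstance) le_rfl
  have h2 : Function.Injective (fun x : RatFunc F => (x.num, x.denom)) := by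
    intro x y hxy
    simp only [Prod.mk.injEq] at hxy
    rw [← RatFunc.num_div_denom x, ← RatFunc.num_div_denom y, hxy.1, hxy.2]
  exact h2.countable

open Cardinal in
theorem tCnk : S_Cnk := by
  intro p _ K _ _ hK
  obtain ⟨F, _, _, _, _, hfd, -⟩ := hK
  have h1 : Countable (RatFunc F) := Cnk_rat F
  have h2 : Countable K := by
    rw [← Cardinal.mk_le_aleph0_iff]
    refine (Algebra.IsAlgebraic.cardinalMk_le_max (RatFunc F) K).trans ?_
    exact max_le (Cardinal.mk_le_aleph0_iff.mpr h1) le_rfl
  refine ⟨h2, ?_⟩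
  rw [← Cardinal.mk_le_aleph0_iff]
  refine (Algebra.IsAlgebraic.cardinalMk_le_max K (Kgs K)).trans ?_
  exact max_le (Cardinal.mk_le_aleph0_iff.mpr h2) le_rfl

end Pool.Agent.MP72P
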