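import Pool.Agent.Lib.MP_72e2e6_nt.P3.G.Defs
import Pool.Agent.Lib.MP_72e2e6_nt.P3.N.Defs
import Pool.Agent.Lib.MP_72e2e6_nt.P3.R.DefsC

/-!
# MP_72e2e6_nt, theorem T3p, part L (level one, the local tests): definitions
-/

namespace Pool.Agent.MP72P

section

variable (p : ℕ) {G J : Type} [Group G] [TopologicalSpace G] {Γ : J → Type} [∀ j, Group (Γ j)]
  [∀ j, TopologicalSpace (Γ j)]

/-- The families of local crossed homomorphisms with values in `ZMod p`. -/
def ZG (ω : ∀ j, Γ j → ZMod p) : AddSubgroup (∀ j, Γ j → ZMod p) where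
  carrier := {f | ∀ j, Coc (fun (g : Γ j) (x : ZMod p) => ω j g * x) (f j)}
  add_mem' := fun {a b} ha hb j => ⟨(ha j).loc.add (hb j).loc, fun g h => by
    simp only [Pi.add_apply, (ha j).mul, (hb j).mul]
    ring⟩
  zero_mem' := fun j => ⟨IsLocallyConstant.const 0, fun g h => by simp⟩
  neg_mem' := fun {a} ha j => ⟨(ha j).loc.neg, fun g h => by
    simp only [Pi.neg_apply, (ha j).mul]
    ring⟩

/-- The families of the local parts of the pairs. -/
def LG (ω : G → ZMod p) (r : ∀ j, Γ j →* G) : AddSubgroup (∀ j, Γ j → ZMod p) where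
  carrier := {f | ∃ z : (G → ZMod p) × (J → ZMod p), Coc (fun g (x : ZMod p) => ω g * x) z.1 ∧
    ∀ j g, f j g = psi (fun g (x : ZMod p) => ω g * x) z j (r j g)}
  add_mem' := by
    rintro a b ⟨z, hz, ha⟩ ⟨z', hz', hb⟩
    refine ⟨z + z', ⟨hz.loc.add hz'.loc, fun g h => ?_⟩, fun j g => ?_⟩
    · simp only [Prod.fst_add, Pi.add_apply, hz.mul, hz'.mul]
      ring
    · simp only [Pi.add_apply, ha, hb, psi, Prod.fst_add, Prod.snd_add]
      ring
  zero_mem' := ⟨0, ⟨IsLocallyConstant.const 0, fun g h => by simp⟩, fun j g => by simp [psi]⟩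
  neg_mem' := by
    rintro a ⟨z, hz, ha⟩
    refine ⟨-z, ⟨hz.loc.neg, fun g h => ?_⟩, fun j g => ?_⟩
    · simp only [Prod.fst_neg, Pi.neg_apply, hz.mul]
      ring
    · simp only [Pi.neg_apply, ha, psi, Prod.fst_neg, Prod.snd_neg]
      ring

end

/-- The concrete test system: local tests `t`, extra tests `e` at the place `w₀`, coordinates: the `a (y k)`, where
`y` enumerates the place `b` and the places at which `ω` is trivial; `ω` is trivial or it is not trivial at
`b`. -/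
structure TsH (p : ℕ) [Fact p.Prime] {K : Type} [Field K] [CharP K p] {J : Type}
    (av : J → AbsoluteValue K ℝ) (α : Kgs K) (h : K) (ι : ∀ j, Kgs K →ₐ[K] Kvs (av j)) {d : ℕ}
    {T : J → Type} (t : ∀ j, T j → Gal(Kvs (av j)/(av j).Completion)) (w₀ : J)
    (e : Fin d → Gal(Kvs (av w₀)/(av w₀).Completion)) (y : Fin (d + 1) → J) (b : J) : Prop where
  hs : HS p av α h
  sha : ShN p av h = PhN p av h
  lt : LTs p (omS p av α) (fun j => rOm p av α (ι j)) t w₀ e
  ok : (tsL (fun j => rOm p av α (ι j)) t w₀ e fun k => Sum.inr (y k)).Ok p (omS p av α)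
    (DS p av α ι)
  yi : Function.Injective y
  yr : ∀ w, w ∈ Set.range y ↔ w = b ∨ ∀ g ∈ DS p av α ι w, omS p av α g = 1
  bs : (∀ g, omS p av α g = 1) ∨ ∃ g ∈ DS p av α ι b, omS p av α g ≠ 1

end Pool.Agent.MP72P
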